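import Mathlib

set_option autoImplicit false

namespace Pool.Agent.V8H91.HT

/-- A family of partially defined maps moves an irreducible component into itself. -/
theorem mem_component {X : Type} [TopologicalSpace X] {C : Set X} (hC : C ∈ irreducibleComponents X)
    {O : Set X} (hO : IsOpen O) (hne : (C ∩ O).Nonempty) {T : Type} (adm : T → X → Prop)
    (Φ : T → X → X) (t0 : T) (h0 : ∀ x ∈ C ∩ O, adm t0 x ∧ Φ t0 x = x)
    (h1 : ∀ x ∈ C ∩ O, ∀ Z1 Z2 : Set X, IsClosed Z1 → IsClosed Z2 →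
      (∀ t, adm t x → Φ t x ∈ Z1 ∪ Z2) → (∀ t, adm t x → Φ t x ∈ Z1) ∨ (∀ t, adm t x → Φ t x ∈ Z2))
    (h2 : ∀ (t : T) (Z : Set X), IsClosed Z → IsOpen {x | x ∈ O ∧ adm t x ∧ Φ t x ∉ Z}) :
    ∀ x ∈ C ∩ O, ∀ t, adm t x → Φ t x ∈ C := by
  have hirr : IsIrreducible C := hC.1
  have hpre := isPreirreducible_iff_isClosed_union_isClosed.1 hirr.2
  have hnO : ¬ C ⊆ Oᶜ := by
    intro h
    obtain ⟨x, hx1, hx2⟩ := hne
    exact h hx1 hx2
  let Y : Set X := {y | ∃ x ∈ C ∩ O, ∃ t, adm t x ∧ Φ t x = y}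
  have hY : IsPreirreducible Y := by
    rw [isPreirreducible_iff_isClosed_union_isClosed]
    intro Z1 Z2 hZ1 hZ2 hY
    let W : Set X → Set X := fun Z => (⋃ t : T, {x | x ∈ O ∧ adm t x ∧ Φ t x ∉ Z})ᶜ
    have hW : ∀ Z, IsClosed Z → IsClosed (W Z) := fun Z hZ =>
      (isOpen_iUnion fun t => h2 t Z hZ).isClosed_compl
    have hW2 : ∀ Z x, x ∈ C ∩ O → (x ∈ W Z ↔ ∀ t, adm t x → Φ t x ∈ Z) := by
      intro Z x hx
      simp only [W, Set.mem_compl_iff, Set.mem_iUnion, Set.mem_setOf_eq, not_exists]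
      constructor
      · intro h t ht
        by_contra hn
        exact h t ⟨hx.2, ht, hn⟩
      · rintro h t ⟨-, ht, hn⟩
        exact hn (h t ht)
    have hcov : C ⊆ W Z1 ∪ (W Z2 ∪ Oᶜ) := by
      intro x hx
      by_cases hxO : x ∈ O
      · rcases h1 x ⟨hx, hxO⟩ Z1 Z2 hZ1 hZ2 (fun t ht => hY ⟨x, ⟨hx, hxO⟩, t, ht, rfl⟩) with h | h
        · exact Or.inl ((hW2 Z1 x ⟨hx, hxO⟩).2 h)
        · exact Or.inr (Or.inl ((hW2 Z2 x ⟨hx, hxO⟩).2 h))
      · exact Or.inr (Or.inr hxO)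
    have hcase : C ⊆ W Z1 ∨ C ⊆ W Z2 := by
      rcases hpre _ _ (hW Z1 hZ1) ((hW Z2 hZ2).union hO.isClosed_compl) hcov with h | h
      · exact Or.inl h
      · rcases hpre _ _ (hW Z2 hZ2) hO.isClosed_compl h with h | h
        · exact Or.inr h
        · exact absurd h hnO
    rcases hcase with h | h
    · left
      rintro y ⟨x, hx, t, ht, rfl⟩
      exact (hW2 Z1 x hx).1 (h hx.1) t ht
    · right
      rintro y ⟨x, hx, t, ht, rfl⟩
      exact (hW2 Z2 x hx).1 (h hx.1) t ht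
  have hDY : C ∩ O ⊆ Y := fun x hx => ⟨x, hx, t0, (h0 x hx).1, (h0 x hx).2⟩
  have hCY : C ⊆ closure Y := by
    have hcov : C ⊆ closure Y ∪ Oᶜ := by
      intro x hx
      by_cases hxO : x ∈ O
      · exact Or.inl (subset_closure (hDY ⟨hx, hxO⟩))
      · exact Or.inr hxO
    rcases hpre _ _ isClosed_closure hO.isClosed_compl hcov with h | h
    · exact h
    · exact absurd h hnO
  have hYi : IsIrreducible (closure Y) := by
    refine ⟨?_, hY.closure⟩
    obtain ⟨x, hx⟩ := hne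
    exact ⟨x, subset_closure (hDY hx)⟩
  have hle : closure Y ⊆ C := hC.2 hYi hCY
  intro x hx t ht
  exact hle (subset_closure ⟨x, hx, t, ht, rfl⟩)

end Pool.Agent.V8H91.HT
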