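import Pool.Agent.V8H91.HT.Up

set_option autoImplicit false

namespace Pool.Agent.V8H91.HT

open MvPolynomial

variable {k : Type} [Field k] {n d : ℕ}

/-! ### charts from homomorphisms -/

section hom

variable {R : Type} [CommRing R] [Algebra k R] (φ : Poly k n →ₐ[k] R) {B : Fin d → Poly k n}

theorem map_C_mul (a : k) (g : Poly k n) : φ (C a * g) = a • φ g := by
  rw [← smul_eq_C_mul, map_smul]

theorem hasCoords_ker {c : Ix n d → k}
    (h : ∀ l i, φ (X l) * φ (B i) = ∑ j, c (l, i, j) • φ (B j)) : HasCoords B (RingHom.ker φ) c := by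
  intro l i
  rw [RingHom.mem_ker, map_sub, map_mul, map_sum, h, sub_eq_zero]
  exact Finset.sum_congr rfl fun j _ => (map_C_mul φ _ _).symm

theorem isChart_ker (h : ∀ g, ∃! a : Fin d → k, φ g = ∑ i, a i • φ (B i)) :
    IsChart B (RingHom.ker φ) := by
  have key : ∀ (g : Poly k n) (a : Fin d → k), g - ∑ i, C (a i) * B i ∈ RingHom.ker φ ↔
      φ g = ∑ i, a i • φ (B i) := by
    intro g a
    rw [RingHom.mem_ker, map_sub, map_sum, sub_eq_zero]
    simp only [map_C_mul]
  intro g
  obtain ⟨a, ha, hu⟩ := h g
  exact ⟨a, (key g a).2 ha, fun a' ha' => hu a' ((key g a').1 ha')⟩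

end hom

/-! ### curves -/

theorem eval_aeval (g : Ix n d → Polynomial k) (s : k) (f : MvPolynomial (Ix n d) k) :
    Polynomial.eval s (aeval g f) = eval (fun x => Polynomial.eval s (g x)) f := by
  induction f using MvPolynomial.induction_on with
  | C a => rw [aeval_C, eval_C, Polynomial.algebraMap_eq, Polynomial.eval_C]
  | add p q hp hq => rw [map_add, map_add, Polynomial.eval_add, hp, hq]
  | mul_X p x hp => rw [map_mul, map_mul, Polynomial.eval_mul, hp, aeval_X, eval_X]

theorem deriv_aeval (g : Ix n d → Polynomial k) (f : MvPolynomial (Ix n d) k) :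
    Polynomial.eval 0 (Polynomial.derivative (aeval g f)) =
      deriv (fun x => Polynomial.eval 0 (g x))
        (fun x => Polynomial.eval 0 (Polynomial.derivative (g x))) f := by
  induction f using MvPolynomial.induction_on with
  | C a =>
    rw [aeval_C, deriv_C, Polynomial.algebraMap_eq, Polynomial.derivative_C, Polynomial.eval_zero]
  | add p q hp hq => rw [map_add, Polynomial.derivative_add, Polynomial.eval_add, hp, hq, deriv_add]
  | mul_X p x hp =>
    rw [map_mul, Polynomial.derivative_mul, Polynomial.eval_add, Polynomial.eval_mul,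
      Polynomial.eval_mul, hp, deriv_mul, deriv_X, eval_aeval, aeval_X, eval_X, eval_aeval]

theorem of_curve [Infinite k] {B : Fin d → Poly k n} (c0 v c2 : Ix n d → k)
    (h : ∀ s : k, s ≠ 0 → (fun x => c0 x + s * v x + s ^ 2 * c2 x) ∈ Reduced B) :
    v ∈ tangent B c0 ∧ c0 ∈ Smoothable B := by
  let g : Ix n d → Polynomial k := fun x =>
    Polynomial.C (c0 x) + Polynomial.X * Polynomial.C (v x) + Polynomial.X ^ 2 * Polynomial.C (c2 x)
  have g0 : (fun x => Polynomial.eval 0 (g x)) = c0 := by
    funext x
    simp [g]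
  have g1 : (fun x => Polynomial.eval 0 (Polynomial.derivative (g x))) = v := by
    funext x
    simp [g]
  have key : ∀ f, Vanishes B f → aeval g f = 0 := by
    intro f hf
    refine Polynomial.eq_zero_of_infinite_isRoot _ ?_
    refine Set.Infinite.mono ?_ (Set.finite_singleton (0 : k)).infinite_compl
    intro s hs
    have hs' : s ≠ 0 := hs
    have h1 := hf _ (h s hs')
    change Polynomial.eval s (aeval g f) = 0
    rw [eval_aeval, ← h1]
    congr 2
    funext x
    simp [g]
    ring
  constructor
  · intro f hf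
    have h1 := deriv_aeval g f
    rw [key f hf, g0, g1] at h1
    rw [← h1]
    simp
  · intro f hf
    have h1 := eval_aeval g 0 f
    rw [key f hf, g0] at h1
    rw [← h1]
    simp

end Pool.Agent.V8H91.HT
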