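import Pool.Agent.V8H91.HT.Up

set_option autoImplicit false

namespace Pool.Agent.V8H91.HT

open MvPolynomial

variable {k : Type} [Field k] {n d : ℕ} {B : Fin d → Poly k n} {I : Ideal (Poly k n)}
  {c : Ix n d → k} {i0 : Fin d}

/-- the universal coefficients of `g` -/
noncomputable def U (h0 : B i0 = 1) (g : Poly k n) : Fin d → MvPolynomial (Ix n d) k :=
  (exists_univ B i0 h0 g).choose

theorem U_spec (h0 : B i0 = 1) (g : Poly k n) {J : Ideal (Poly k n)} {c' : Ix n d → k}
    (hc : HasCoords B J c') :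
    Ideal.Quotient.mk J g = ∑ j, eval c' (U h0 g j) • Ideal.Quotient.mk J (B j) :=
  (exists_univ B i0 h0 g).choose_spec J c' hc

theorem deriv_fam {v : Ix n d → k} (hv : v ∈ tangent B c) {P P' : Fin d → MvPolynomial (Ix n d) k}
    (h : ∀ (J : Ideal (Poly k n)) (c' : Ix n d → k), IsChart B J → HasCoords B J c' →
      ∑ j, eval c' (P j) • Ideal.Quotient.mk J (B j) =
        ∑ j, eval c' (P' j) • Ideal.Quotient.mk J (B j)) (j : Fin d) :
    deriv c v (P j) = deriv c v (P' j) := by
  have h1 := hv (P j - P' j) (by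
    rintro c' ⟨J, -, h1, h2⟩
    have h3 := congrFun (chart_unique h1 (h J c' h1 h2)) j
    rw [map_sub]
    exact sub_eq_zero.2 h3)
  rw [deriv_sub] at h1
  exact sub_eq_zero.1 h1

/-- the derivation of the reduction map -/
noncomputable def psi (I : Ideal (Poly k n)) (c : Ix n d → k) (h0 : B i0 = 1) (g : Poly k n) :
    (Ix n d → k) →ₗ[k] (Poly k n ⧸ I) :=
  ∑ j, (derivL c (U h0 g j)).smulRight (Ideal.Quotient.mk I (B j))

theorem psi_apply (h0 : B i0 = 1) (g : Poly k n) (v : Ix n d → k) :
    psi I c h0 g v = ∑ j, deriv c v (U h0 g j) • Ideal.Quotient.mk I (B j) := by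
  unfold psi
  rw [LinearMap.sum_apply]
  rfl

theorem psi_of (h0 : B i0 = 1) (g : Poly k n) {v : Ix n d → k} (hv : v ∈ tangent B c)
    (P : Fin d → MvPolynomial (Ix n d) k)
    (h : ∀ (J : Ideal (Poly k n)) (c' : Ix n d → k), IsChart B J → HasCoords B J c' →
      Ideal.Quotient.mk J g = ∑ j, eval c' (P j) • Ideal.Quotient.mk J (B j)) :
    psi I c h0 g v = ∑ j, deriv c v (P j) • Ideal.Quotient.mk I (B j) := by
  rw [psi_apply]
  refine Finset.sum_congr rfl fun j _ => ?_
  rw [deriv_fam hv (P := U h0 g) (P' := P) (fun J c' h1 h2 => by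
    rw [← U_spec h0 g h2, h J c' h1 h2]) j]

theorem psi_add (h0 : B i0 = 1) {v : Ix n d → k} (hv : v ∈ tangent B c) (g g' : Poly k n) :
    psi I c h0 (g + g') v = psi I c h0 g v + psi I c h0 g' v := by
  rw [psi_of h0 (g + g') hv (fun j => U h0 g j + U h0 g' j), psi_apply, psi_apply,
    ← Finset.sum_add_distrib]
  · exact Finset.sum_congr rfl fun j _ => by rw [deriv_add, add_smul]
  · intro J c' _ h2
    rw [map_add, U_spec h0 g h2, U_spec h0 g' h2, ← Finset.sum_add_distrib]
    exact Finset.sum_congr rfl fun j _ => by rw [map_add, add_smul]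

theorem psi_C (h0 : B i0 = 1) {v : Ix n d → k} (hv : v ∈ tangent B c) (a : k) :
    psi I c h0 (C a) v = 0 := by
  classical
  rw [psi_of h0 (C a) hv (fun j => C (if j = i0 then a else 0))]
  · exact Finset.sum_eq_zero fun j _ => by rw [deriv_C, zero_smul]
  · intro J c' _ _
    rw [Finset.sum_eq_single i0]
    · rw [if_pos rfl, eval_C, h0, ← mk_C_mul, mul_one]
    · intro j _ hj
      rw [if_neg hj, eval_C, zero_smul]
    · intro h
      exact absurd (Finset.mem_univ i0) h

theorem psi_B (h0 : B i0 = 1) {v : Ix n d → k} (hv : v ∈ tangent B c) (i : Fin d) :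
    psi I c h0 (B i) v = 0 := by
  classical
  rw [psi_of h0 (B i) hv (fun j => C (if j = i then 1 else 0))]
  · exact Finset.sum_eq_zero fun j _ => by rw [deriv_C, zero_smul]
  · intro J c' _ _
    rw [Finset.sum_eq_single i]
    · rw [if_pos rfl, eval_C, one_smul]
    · intro j _ hj
      rw [if_neg hj, eval_C, zero_smul]
    · intro h
      exact absurd (Finset.mem_univ i) h

theorem psi_XB (h0 : B i0 = 1) {v : Ix n d → k} (hv : v ∈ tangent B c) (l : Fin n) (i : Fin d) :
    psi I c h0 (X l * B i) v = ∑ j, v (l, i, j) • Ideal.Quotient.mk I (B j) := by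
  rw [psi_of h0 (X l * B i) hv (fun j => X (l, i, j))]
  · exact Finset.sum_congr rfl fun j _ => by rw [deriv_X]
  · intro J c' _ h2
    simp only [eval_X]
    rw [← mk_sum (J := J) (B := B) (fun j => c' (l, i, j))]
    exact Ideal.Quotient.eq.2 (h2 l i)

theorem psi_mul (h0 : B i0 = 1) (hI : HasCoords B I c) {v : Ix n d → k} (hv : v ∈ tangent B c)
    (g g' : Poly k n) : psi I c h0 (g * g') v =
      Ideal.Quotient.mk I g' * psi I c h0 g v + Ideal.Quotient.mk I g * psi I c h0 g' v +
        ∑ i, ∑ m, (eval c (U h0 g i) * eval c (U h0 g' m)) • psi I c h0 (B i * B m) v := by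
  have e1 := psi_of (I := I) h0 (g * g') hv
    (fun j => ∑ i, ∑ m, U h0 g i * U h0 g' m * U h0 (B i * B m) j) (by
      intro J c' _ h2
      rw [map_mul, U_spec h0 g h2, U_spec h0 g' h2, Finset.sum_mul_sum]
      simp only [map_sum, map_mul, Finset.sum_smul]
      rw [Finset.sum_comm (s := Finset.univ (α := Fin d)) (t := Finset.univ (α := Fin d))
        (f := fun j i => ∑ m, (eval c' (U h0 g i) * eval c' (U h0 g' m) *
          eval c' (U h0 (B i * B m) j)) • Ideal.Quotient.mk J (B j))]
      refine Finset.sum_congr rfl fun i _ => ?_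
      rw [Finset.sum_comm]
      refine Finset.sum_congr rfl fun m _ => ?_
      rw [smul_mul_smul_comm, ← map_mul (Ideal.Quotient.mk J), U_spec h0 (B i * B m) h2, Finset.smul_sum]
      exact Finset.sum_congr rfl fun j _ => by rw [smul_smul])
  have e2 : ∀ i m, Ideal.Quotient.mk I (B i) * Ideal.Quotient.mk I (B m) =
      ∑ j, eval c (U h0 (B i * B m) j) • Ideal.Quotient.mk I (B j) := by
    intro i m
    rw [← map_mul, ← U_spec h0 (B i * B m) hI]
  have e3 : psi I c h0 (g * g') v = ∑ i, ∑ m,
      ((deriv c v (U h0 g i) * eval c (U h0 g' m)) •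
        (Ideal.Quotient.mk I (B i) * Ideal.Quotient.mk I (B m)) +
      (eval c (U h0 g i) * deriv c v (U h0 g' m)) •
        (Ideal.Quotient.mk I (B i) * Ideal.Quotient.mk I (B m)) +
      (eval c (U h0 g i) * eval c (U h0 g' m)) • psi I c h0 (B i * B m) v) := by
    rw [e1]
    simp only [deriv_sum, deriv_mul, Finset.sum_smul]
    rw [Finset.sum_comm]
    refine Finset.sum_congr rfl fun i _ => ?_
    rw [Finset.sum_comm]
    refine Finset.sum_congr rfl fun m _ => ?_
    rw [e2, psi_apply, Finset.smul_sum, Finset.smul_sum, Finset.smul_sum, ← Finset.sum_add_distrib,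
      ← Finset.sum_add_distrib]
    refine Finset.sum_congr rfl fun j _ => ?_
    rw [smul_smul, smul_smul, smul_smul, ← add_smul, ← add_smul]
    congr 1
    simp only [map_mul]
    ring
  have r1 : Ideal.Quotient.mk I g' * psi I c h0 g v = ∑ i, ∑ m,
      (deriv c v (U h0 g i) * eval c (U h0 g' m)) •
        (Ideal.Quotient.mk I (B i) * Ideal.Quotient.mk I (B m)) := by
    rw [U_spec h0 g' hI, psi_apply, Finset.sum_mul_sum, Finset.sum_comm]
    refine Finset.sum_congr rfl fun i _ => Finset.sum_congr rfl fun m _ => ?_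
    rw [smul_mul_smul_comm, mul_comm (eval c _), mul_comm (Ideal.Quotient.mk I (B m))]
  have r2 : Ideal.Quotient.mk I g * psi I c h0 g' v = ∑ i, ∑ m,
      (eval c (U h0 g i) * deriv c v (U h0 g' m)) •
        (Ideal.Quotient.mk I (B i) * Ideal.Quotient.mk I (B m)) := by
    rw [U_spec h0 g hI, psi_apply, Finset.sum_mul_sum]
    exact Finset.sum_congr rfl fun i _ => Finset.sum_congr rfl fun m _ => by
      rw [smul_mul_smul_comm]
  rw [e3, r1, r2, ← Finset.sum_add_distrib, ← Finset.sum_add_distrib]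
  refine Finset.sum_congr rfl fun i _ => ?_
  rw [← Finset.sum_add_distrib, ← Finset.sum_add_distrib]

end Pool.Agent.V8H91.HT
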