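import Pool.Agent.V8H91.HT.Hilb
import Pool.Agent.V8H91.HT.Up2
import Pool.Agent.V8H91.HT.Low

set_option autoImplicit false

namespace Pool.Agent.V8H91.HT

open MvPolynomial

variable {k : Type} [Field k] {n d : ℕ}

section core

variable {A : Type} [CommRing A] [Algebra k A] (b : Module.Basis (Fin d) k A)
  (φ : Poly k n →ₐ[k] A) (B' : Fin d → Poly k n)

/-- the matrix of the images of `B'` -/
noncomputable def Mt : Matrix (Fin d) (Fin d) k := fun i j => b.repr (φ (B' i)) j

/-- the coordinates of the images of `x_l B'_i` -/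
noncomputable def Nt : Ix n d → k := fun p => b.repr (φ (X p.1 * B' p.2.1)) p.2.2

theorem repr_sum (a : Fin d → k) (j : Fin d) :
    b.repr (∑ i, a i • φ (B' i)) j = Matrix.vecMul a (Mt b φ B') j := by
  rw [map_sum, Finsupp.finset_sum_apply]
  simp only [map_smul, Finsupp.smul_apply, smul_eq_mul, Matrix.vecMul, dotProduct, Mt]

theorem eq_sum_iff (x : A) (a : Fin d → k) : x = ∑ i, a i • φ (B' i) ↔
    (fun j => b.repr x j) = Matrix.vecMul a (Mt b φ B') := by
  constructor
  · intro h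
    funext j
    rw [h, repr_sum]
  · intro h
    refine b.ext_elem fun j => ?_
    rw [repr_sum, ← h]

theorem ker_iff (g : Poly k n) (a : Fin d → k) : g - ∑ i, C (a i) * B' i ∈ RingHom.ker φ ↔
    φ g = ∑ i, a i • φ (B' i) := by
  rw [RingHom.mem_ker, map_sub, map_sum, sub_eq_zero]
  simp only [map_C_mul]

theorem chart_iff : IsChart B' (RingHom.ker φ) ↔ (Mt b φ B').det ≠ 0 := by
  constructor
  · intro h hdet
    obtain ⟨a, ha, ha0⟩ := Matrix.exists_vecMul_eq_zero_iff.2 hdet
    apply ha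
    refine (h 0).unique ?_ ?_
    · rw [ker_iff, eq_sum_iff b, ha0, map_zero, map_zero]
      rfl
    · rw [ker_iff, eq_sum_iff b, map_zero, map_zero, Matrix.zero_vecMul]
      rfl
  · intro h g
    have hu : IsUnit (Mt b φ B').det := isUnit_iff_ne_zero.2 h
    refine ⟨Matrix.vecMul (fun j => b.repr (φ g) j) (Mt b φ B')⁻¹, ?_, fun a ha => ?_⟩
    · beta_reduce
      rw [ker_iff, eq_sum_iff b, Matrix.vecMul_vecMul, Matrix.nonsing_inv_mul _ hu, Matrix.vecMul_one]
    · beta_reduce at ha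
      rw [ker_iff, eq_sum_iff b] at ha
      rw [ha, Matrix.vecMul_vecMul, Matrix.mul_nonsing_inv _ hu, Matrix.vecMul_one]

/-- the numerators of the coordinates -/
noncomputable def num : Ix n d → k := fun p =>
  ∑ m, Nt b φ B' (p.1, p.2.1, m) * (Mt b φ B').adjugate m p.2.2

theorem coords_of (h : (Mt b φ B').det ≠ 0) :
    HasCoords B' (RingHom.ker φ) (fun p => num b φ B' p / (Mt b φ B').det) := by
  intro l i
  rw [ker_iff φ B' (X l * B' i) (fun j => num b φ B' (l, i, j) / (Mt b φ B').det), eq_sum_iff b]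
  have h1 : (fun j => num b φ B' (l, i, j) / (Mt b φ B').det) =
      (Mt b φ B').det⁻¹ • Matrix.vecMul (fun m => Nt b φ B' (l, i, m)) (Mt b φ B').adjugate := by
    funext j
    rw [Pi.smul_apply, smul_eq_mul, div_eq_inv_mul]
    rfl
  rw [h1, Matrix.smul_vecMul, Matrix.vecMul_vecMul, Matrix.adjugate_mul, Matrix.vecMul_smul,
    Matrix.vecMul_one, smul_smul, inv_mul_cancel₀ h, one_smul]
  rfl

end core

/-- coordinates are unique -/
theorem coords_unique {B : Fin d → Poly k n} {J : Ideal (Poly k n)} (hB : IsChart B J)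
    {c c' : Ix n d → k} (h : HasCoords B J c) (h' : HasCoords B J c') : c = c' := by
  funext ⟨l, i, j⟩
  exact congrFun ((hB (X l * B i)).unique (h l i) (h' l i)) j

/-- clearing denominators -/
theorem clear {R : Type} [CommRing R] [Algebra k R] (D : R) (nu : Ix n d → R)
    (f : MvPolynomial (Ix n d) k) : ∃ (K : ℕ) (h : R), ∀ e : R →ₐ[k] k, e D ≠ 0 →
      e D ^ K * eval (fun x => e (nu x) / e D) f = e h := by
  induction f using MvPolynomial.induction_on with
  | C a =>
    refine ⟨0, algebraMap k R a, fun e _ => ?_⟩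
    rw [pow_zero, one_mul, eval_C, AlgHom.commutes]
    rfl
  | add p q hp hq =>
    obtain ⟨K1, h1, H1⟩ := hp
    obtain ⟨K2, h2, H2⟩ := hq
    refine ⟨K1 + K2, D ^ K2 * h1 + D ^ K1 * h2, fun e he => ?_⟩
    rw [map_add, map_add, map_mul, map_mul, map_pow, map_pow, ← H1 e he, ← H2 e he]
    ring
  | mul_X p x hp =>
    obtain ⟨K1, h1, H1⟩ := hp
    refine ⟨K1 + 1, h1 * nu x, fun e he => ?_⟩
    rw [map_mul, map_mul, ← H1 e he, eval_X]
    field_simp
    ring

/-- the numerators over the ring of parameters -/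
noncomputable def nuR {R : Type} [CommRing R] (MR : Matrix (Fin d) (Fin d) R) (NR : Ix n d → R) :
    Ix n d → R := fun p => ∑ m, NR (p.1, p.2.1, m) * MR.adjugate m p.2.2

theorem fam_coords {R : Type} [CommRing R] [Algebra k R] (MR : Matrix (Fin d) (Fin d) R)
    (NR : Ix n d → R) (B' : Fin d → Poly k n) (e : R →ₐ[k] k) {A : Type} [CommRing A] [Algebra k A]
    (b : Module.Basis (Fin d) k A) (φ : Poly k n →ₐ[k] A)
    (hM : ∀ i j, e (MR i j) = b.repr (φ (B' i)) j)
    (hN : ∀ l i j, e (NR (l, i, j)) = b.repr (φ (X l * B' i)) j) :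
    e MR.det = (Mt b φ B').det ∧ ∀ p, e (nuR MR NR p) = num b φ B' p := by
  have eM : (e.toRingHom.mapMatrix MR) = Mt b φ B' := by
    ext i j
    exact hM i j
  refine ⟨?_, fun p => ?_⟩
  · rw [← eM]
    exact RingHom.map_det e.toRingHom MR
  · unfold nuR
    rw [map_sum]
    refine Finset.sum_congr rfl fun m _ => ?_
    rw [map_mul, hN]
    have e3 : (e.toRingHom.mapMatrix MR.adjugate) = (Mt b φ B').adjugate := by
      rw [← eM]
      exact RingHom.map_adjugate e.toRingHom MR
    have e4 := congrFun (congrFun e3 m) p.2.2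
    rw [← e4]
    rfl

/-- the core lemma on families of homomorphisms -/
theorem family {R : Type} [CommRing R] [Algebra k R] (MR : Matrix (Fin d) (Fin d) R)
    (NR : Ix n d → R) {Z : Set (Hilb k d n)} (hZ : IsClosed Z) (B' : Fin d → Poly k n)
    (hB' : ∃ i, B' i = 1) : ∃ H : Set R, ∀ (e : R →ₐ[k] k) (A : Type) (_ : CommRing A) (_ : Algebra k A)
      (b : Module.Basis (Fin d) k A) (φ : Poly k n →ₐ[k] A),
      (∀ i j, e (MR i j) = b.repr (φ (B' i)) j) →
      (∀ l i j, e (NR (l, i, j)) = b.repr (φ (X l * B' i)) j) →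
      e MR.det ≠ 0 → ∀ (I : Hilb k d n), I.1 = RingHom.ker φ → (I ∈ Z ↔ ∀ h ∈ H, e h = 0) := by
  obtain ⟨F, hF⟩ := (isClosed_iff.1 hZ) B' hB'
  choose K h hK using fun f : MvPolynomial (Ix n d) k => clear MR.det (nuR MR NR) f
  refine ⟨h '' F, ?_⟩
  intro e A _ _ b φ hM hN hdet I hI
  obtain ⟨e1, e2⟩ := fam_coords MR NR B' e b φ hM hN
  have hd' : (Mt b φ B').det ≠ 0 := e1 ▸ hdet
  have hc := coords_of b φ B' hd'
  have hch := (chart_iff b φ B').2 hd'
  rw [← hI] at hc hch
  rw [hF I _ hch hc]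
  constructor
  · rintro h1 _ ⟨f, hf, rfl⟩
    rw [← hK f e hdet]
    simp only [e2, e1]
    rw [h1 f hf, mul_zero]
  · intro h1 f hf
    have h2 := h1 _ ⟨f, hf, rfl⟩
    rw [← hK f e hdet] at h2
    simp only [e2, e1] at h2
    exact (mul_eq_zero.1 h2).resolve_left (pow_ne_zero _ hd')

theorem repr_U {B : Fin d → Poly k n} {i0 : Fin d} (h0 : B i0 = 1) {J : Ideal (Poly k n)}
    (hB : IsChart B J) {c : Ix n d → k} (hc : HasCoords B J c) (g : Poly k n) (j : Fin d) :
    (basis hB).repr (Ideal.Quotient.mk J g) j = eval c (U h0 g j) := by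
  rw [U_spec h0 g hc]
  simp only [← basis_apply hB]
  exact congrFun ((basis hB).repr_sum_self (fun j => eval c (U h0 g j))) j

/-- existence of coordinates -/
theorem exists_coords {B : Fin d → Poly k n} {J : Ideal (Poly k n)}
    (hB : IsChart B J) : ∃ c, HasCoords B J c := by
  choose a ha _ using fun g => hB g
  exact ⟨fun p => a (X p.1 * B p.2.1) p.2.2, fun l i => ha (X l * B i)⟩

/-- **Open sets from polynomials in one chart.** -/
theorem isOpen_locus (B : Fin d → Poly k n) (G : Set (MvPolynomial (Ix n d) k)) :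
    IsOpen {I : Hilb k d n | ∃ c, IsChart B I.1 ∧ HasCoords B I.1 c ∧ ∃ g ∈ G, eval c g ≠ 0} := by
  rw [← isClosed_compl_iff, isClosed_iff]
  rintro B'' ⟨i1, h1⟩
  choose K h hK using fun f : MvPolynomial (Ix n d) k =>
    clear (k := k) (Matrix.det (fun i j => U h1 (B i) j))
      (nuR (fun i j => U h1 (B i) j) (fun p : Ix n d => U h1 (X p.1 * B p.2.1) p.2.2)) f
  refine ⟨{f | ∃ g ∈ G, f = Matrix.det (fun i j => U h1 (B i) j) * h g}, fun I c hB hc => ?_⟩
  let e : MvPolynomial (Ix n d) k →ₐ[k] k := aeval c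
  have he : ∀ f, e f = eval c f := fun f => by
    exact DFunLike.congr_fun (coe_aeval_eq_eval c) f
  let φ : Poly k n →ₐ[k] (Poly k n ⧸ I.1) := Ideal.Quotient.mkₐ k I.1
  have hker : RingHom.ker φ = I.1 := Ideal.Quotient.mkₐ_ker k I.1
  obtain ⟨e1, e2⟩ := fam_coords (k := k) (fun i j => U h1 (B i) j)
    (fun p : Ix n d => U h1 (X p.1 * B p.2.1) p.2.2) B e (basis hB) φ
    (fun i j => by rw [he]; exact (repr_U h1 hB hc (B i) j).symm)
    (fun l i j => by rw [he]; exact (repr_U h1 hB hc (X l * B i) j).symm)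
  have hchart := chart_iff (basis hB) φ B
  rw [hker, ← e1] at hchart
  constructor
  · rintro hI _ ⟨g, hg, rfl⟩
    rw [← he, map_mul]
    by_cases hD : e (Matrix.det (fun i j => U h1 (B i) j)) = 0
    · rw [hD, zero_mul]
    · have h3 := coords_of (basis hB) φ B (e1 ▸ hD)
      rw [hker] at h3
      rw [← hK g e hD]
      simp only [e2, e1]
      have h4 : eval (fun x => num (basis hB) φ B x / (Mt (basis hB) φ B).det) g = 0 := by
        by_contra hn
        exact hI ⟨_, hchart.2 hD, h3, g, hg, hn⟩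
      rw [h4, mul_zero, mul_zero]
  · rintro hF ⟨c', h3, h4, g, hg, hn⟩
    have hD := hchart.1 h3
    have h5 := coords_of (basis hB) φ B (e1 ▸ hD)
    rw [hker] at h5
    have h6 := coords_unique h3 h4 h5
    have h7 := hF _ ⟨g, hg, rfl⟩
    rw [← he, map_mul, ← hK g e hD] at h7
    simp only [e2, e1] at h7
    rw [← h6] at h7
    rw [e1] at hD
    exact (mul_ne_zero hD (mul_ne_zero (pow_ne_zero _ hD) hn)) h7

end Pool.Agent.V8H91.HT
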