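import Mathlib

/-!
# Tangent spaces of the smoothable component of the Hilbert scheme of points: definitions

`S = k[x_1, ..., x_n]`. A family `B` of `d` polynomials, one of which is `1`, defines an open chart of
`Hilb^d(𝔸^n)`: the ideals `I` for which `B` is a basis of `S / I`. The coordinates of `I` are the
coefficients `c (l, i, j)` of the multiplication table `x_l B_i = ∑_j c (l, i, j) B_j` modulo `I`;
they identify the chart with a closed subscheme of affine space. These charts cover the Hilbert
scheme.
-/

set_option autoImplicit false

namespace Pool.Agent.V8H91.HT

open MvPolynomial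

/-- The polynomial ring in `n` variables. -/
abbrev Poly (k : Type) [Field k] (n : ℕ) : Type := MvPolynomial (Fin n) k

/-- The indices of the coordinates. -/
abbrev Ix (n d : ℕ) : Type := Fin n × Fin d × Fin d

variable {k : Type} [Field k] {n d : ℕ}

/-- The classes of the polynomials `B i` form a basis of `S / I` (so that `I` has colength `d`): each
polynomial is congruent modulo `I` to exactly one linear combination of the `B i`. -/
def IsChart (B : Fin d → Poly k n) (I : Ideal (Poly k n)) : Prop :=
  ∀ g : Poly k n, ∃! a : Fin d → k, g - ∑ i, C (a i) * B i ∈ I

/-- The coordinates of the ideal `I` in the chart of `B` are `c`: modulo `I` the product `x_l B_i` is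
`∑_j c (l, i, j) B_j`. -/
def HasCoords (B : Fin d → Poly k n) (I : Ideal (Poly k n)) (c : Ix n d → k) : Prop :=
  ∀ l i, X l * B i - ∑ j, C (c (l, i, j)) * B j ∈ I

/-- The coordinates of the reduced subschemes (the sets of `d` points) in the chart of `B`. -/
def Reduced (B : Fin d → Poly k n) : Set (Ix n d → k) :=
  {c | ∃ J : Ideal (Poly k n), J.IsRadical ∧ IsChart B J ∧ HasCoords B J c}

/-- The polynomials in the coordinates which vanish on the reduced subschemes of the chart: the ideal of
the smoothable component with its reduced structure. -/
def Vanishes (B : Fin d → Poly k n) (f : MvPolynomial (Ix n d) k) : Prop :=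
  ∀ c ∈ Reduced B, eval c f = 0

/-- The smoothable component in the chart of `B`: the Zariski closure of the reduced subschemes. -/
def Smoothable (B : Fin d → Poly k n) : Set (Ix n d → k) :=
  {c | ∀ f, Vanishes B f → eval c f = 0}

/-- The derivative of `f` at the point `c` in the direction `v`. -/
noncomputable def deriv (c v : Ix n d → k) (f : MvPolynomial (Ix n d) k) : k :=
  ∑ x, v x * eval c (pderiv x f)

/-- The Zariski tangent space at the point `c` of the smoothable component, with its reduced structure:
the directions in which the derivatives at `c` of all elements of its ideal vanish. -/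
noncomputable def tangent (B : Fin d → Poly k n) (c : Ix n d → k) : Submodule k (Ix n d → k) where
  carrier := {v | ∀ f, Vanishes B f → deriv c v f = 0}
  add_mem' := by
    intro v w hv hw f hf
    have h : deriv c (v + w) f = deriv c v f + deriv c w f := by
      simp only [deriv, Pi.add_apply, add_mul, Finset.sum_add_distrib]
    rw [h, hv f hf, hw f hf, add_zero]
  zero_mem' := by
    intro f _
    simp [deriv]
  smul_mem' := by
    intro a v hv f hf
    have h : deriv c (a • v) f = a * deriv c v f := by
      simp only [deriv, Pi.smul_apply, smul_eq_mul, Finset.mul_sum, mul_assoc]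
    rw [h, hv f hf, mul_zero]

/-- The dimensions of the tangent spaces of the smoothable component `H_(d,n)` at its points `I`, with
coordinates `c` in the chart of `B`. -/
def dims (k : Type) [Field k] (d n : ℕ) : Set ℕ :=
  {m | ∃ (B : Fin d → Poly k n) (I : Ideal (Poly k n)) (c : Ix n d → k), (∃ i, B i = 1) ∧
    IsChart B I ∧ HasCoords B I c ∧ c ∈ Smoothable B ∧ m = Module.finrank k (tangent B c)}

end Pool.Agent.V8H91.HT
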