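import Pool.Agent.V8H91.HT.Step2

set_option autoImplicit false

namespace Pool.Agent.V8H91.HT

open MvPolynomial

variable {k : Type} [Field k] {n d : ℕ}

/-- in a chart the closure of the radical ideals is the set `Smoothable` -/
theorem mem_closure_iff_smoothable {B : Fin d → Poly k n} (hn : ∃ i, B i = 1) {I : Hilb k d n}
    (hB : IsChart B I.1) {c : Ix n d → k} (hc : HasCoords B I.1 c) :
    I ∈ closure {J : Hilb k d n | J.1.IsRadical} ↔ c ∈ Smoothable B := by
  constructor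
  · intro h f hf
    by_contra hne
    have hopen := isOpen_locus B ({f} : Set (MvPolynomial (Ix n d) k))
    have hmem : I ∈ {I : Hilb k d n | ∃ c, IsChart B I.1 ∧ HasCoords B I.1 c ∧
        ∃ g ∈ ({f} : Set (MvPolynomial (Ix n d) k)), eval c g ≠ 0} := ⟨c, hB, hc, f, rfl, hne⟩
    obtain ⟨J, ⟨c', h1, h2, g, hg, h3⟩, hJ⟩ := mem_closure_iff.1 h _ hopen hmem
    rw [Set.mem_singleton_iff.1 hg] at h3
    exact h3 (hf c' ⟨J.1, hJ, h1, h2⟩)
  · intro h
    refine Set.mem_sInter.2 ?_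
    rintro Z ⟨hZ, hsub⟩
    obtain ⟨F, hF⟩ := (isClosed_iff.1 hZ) B hn
    rw [hF I c hB hc]
    intro f hf
    refine h f ?_
    rintro c' ⟨J, h1, h2, h3⟩
    exact (hF ⟨J, B, hn, h2⟩ c' h2 h3).1 (hsub h1) f hf

end Pool.Agent.V8H91.HT
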