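import Pool.Agent.V8H91.HT.Defs

/-!
# The Hilbert scheme of points with its Zariski topology
-/

set_option autoImplicit false

namespace Pool.Agent.V8H91.HT

open MvPolynomial

/-- The closed points of the Hilbert scheme of `d ≥ 1` points in affine `n`-space: the ideals `I` for which
some family of `d` polynomials, one of them `1`, is a basis of `S / I`. -/
def Hilb (k : Type) [Field k] (d n : ℕ) : Type :=
  {I : Ideal (Poly k n) // ∃ B : Fin d → Poly k n, (∃ i, B i = 1) ∧ IsChart B I}

variable {k : Type} [Field k] {n d : ℕ}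

/-- The set `Z` is closed in each chart: in the chart of `B` it is the set of the zeros of a set `F` of
polynomials in the coordinates. -/
def ZClosed (Z : Set (Hilb k d n)) : Prop :=
  ∀ B : Fin d → Poly k n, (∃ i, B i = 1) → ∃ F : Set (MvPolynomial (Ix n d) k),
    ∀ (I : Hilb k d n) (c : Ix n d → k), IsChart B I.1 → HasCoords B I.1 c →
      (I ∈ Z ↔ ∀ f ∈ F, eval c f = 0)

/-- The Zariski topology: a set is closed if it is closed in each chart. -/
instance : TopologicalSpace (Hilb k d n) :=
  TopologicalSpace.ofClosed {Z | ZClosed Z}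
    (by
      intro B _
      refine ⟨{1}, fun I c _ _ => ?_⟩
      constructor
      · intro h
        exact absurd h (Set.notMem_empty _)
      · intro h
        have h1 := h 1 rfl
        rw [map_one] at h1
        exact absurd h1 one_ne_zero)
    (by
      intro A hA B hB
      choose F hF using fun (Z : A) => hA Z.2 B hB
      refine ⟨⋃ Z, F Z, fun I c h1 h2 => ?_⟩
      constructor
      · intro h f hf
        obtain ⟨Z, hZ⟩ := Set.mem_iUnion.1 hf
        exact (hF Z I c h1 h2).1 (h Z.1 Z.2) f hZ
      · intro h Z hZ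
        exact (hF ⟨Z, hZ⟩ I c h1 h2).2 fun f hf => h f (Set.mem_iUnion.2 ⟨⟨Z, hZ⟩, hf⟩))
    (by
      intro Z1 h1 Z2 h2 B hB
      obtain ⟨F1, hF1⟩ := h1 B hB
      obtain ⟨F2, hF2⟩ := h2 B hB
      refine ⟨{h | ∃ f ∈ F1, ∃ g ∈ F2, h = f * g}, fun I c h3 h4 => ?_⟩
      constructor
      · rintro (h | h) _ ⟨f, hf, g, hg, rfl⟩
        · rw [map_mul, (hF1 I c h3 h4).1 h f hf, zero_mul]
        · rw [map_mul, (hF2 I c h3 h4).1 h g hg, mul_zero]
      · intro h
        by_cases h5 : I ∈ Z1
        · exact Or.inl h5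
        · right
          have h6 : ¬ ∀ f ∈ F1, eval c f = 0 := fun h7 => h5 ((hF1 I c h3 h4).2 h7)
          push_neg at h6
          obtain ⟨f, hf, hf0⟩ := h6
          refine (hF2 I c h3 h4).2 fun g hg => ?_
          have h7 := h (f * g) ⟨f, hf, g, hg, rfl⟩
          rw [map_mul] at h7
          exact (mul_eq_zero.1 h7).resolve_left hf0)

theorem isClosed_iff {Z : Set (Hilb k d n)} : IsClosed Z ↔ ZClosed Z := by
  rw [← isOpen_compl_iff]
  change Zᶜᶜ ∈ {Z | ZClosed Z} ↔ _
  rw [compl_compl]
  rfl

end Pool.Agent.V8H91.HT
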