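import Pool.Agent.V8H91.HT.Low

set_option autoImplicit false

namespace Pool.Agent.V8H91.HT

open MvPolynomial

variable {k : Type} [Field k] {r q : ℕ}

/-- the basis `1, x_1, ..., x_r` -/
noncomputable def B0 (k : Type) [Field k] (r q : ℕ) : Fin (r + 1) → Poly k (r + q) :=
  Fin.cons 1 (fun i => X (Fin.castAdd q i))

/-- coordinates of the square-zero point -/
def c0 (k : Type) [Field k] (r q : ℕ) : Ix (r + q) (r + 1) → k := fun p =>
  Fin.addCases (motive := fun _ => k)
    (fun i' => Fin.cases (motive := fun _ => k) (if p.2.2 = Fin.succ i' then 1 else 0) (fun _ => 0) p.2.1)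
    (fun _ => 0) p.1

/-- tangent directions at the square-zero point -/
def V (Cf : Fin r → Fin r → Fin r → k) (e : Fin q → k) (w : Fin q → Fin r → k) :
    Ix (r + q) (r + 1) → k := fun p =>
  Fin.addCases (motive := fun _ => k)
    (fun i' => Fin.cases (motive := fun _ => k) 0
      (fun t => Fin.cases (motive := fun _ => k) 0 (fun j' => Cf i' t j') p.2.2) p.2.1)
    (fun l' => Fin.cases (motive := fun _ => k)
      (Fin.cases (motive := fun _ => k) (e l') (fun j' => w l' j') p.2.2)
      (fun t => Fin.cases (motive := fun _ => k) 0 (fun j' => if j' = t then e l' else 0) p.2.2) p.2.1) p.1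

/-- second order terms -/
def c2 (Cf : Fin r → Fin r → Fin r → k) (w : Fin q → Fin r → k) :
    Ix (r + q) (r + 1) → k := fun p =>
  Fin.addCases (motive := fun _ => k) (fun _ => 0)
    (fun l' => Fin.cases (motive := fun _ => k) 0
      (fun t => Fin.cases (motive := fun _ => k) 0 (fun j' => ∑ a, w l' a * Cf a t j') p.2.2) p.2.1) p.1

/-- the points -/
def qq (Q : Matrix (Fin r) (Fin r) k) : Fin (r + 1) → Fin r → k := Fin.cons 0 Q

/-- the values of the variables at the points -/
def pt (Q : Matrix (Fin r) (Fin r) k) (e : Fin q → k) (w : Fin q → Fin r → k) (s : k) :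
    Fin (r + q) → Fin (r + 1) → k := fun l m =>
  Fin.addCases (motive := fun _ => k) (fun i => s * qq Q m i)
    (fun l' => s * e l' + s * ∑ j, w l' j * (s * qq Q m j)) l

/-- the structure constants -/
def Cc (Q Q' : Matrix (Fin r) (Fin r) k) (a t j : Fin r) : k := ∑ m, Q m a * Q m t * Q' j m

theorem Cc_key {Q Q' : Matrix (Fin r) (Fin r) k} (hQ : Q * Q' = 1) (a t : Fin r) (m : Fin (r + 1)) :
    ∑ j, Cc Q Q' a t j * qq Q m j = qq Q m a * qq Q m t := by
  refine Fin.cases ?_ (fun m' => ?_) m
  · simp [qq]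
  · simp only [qq, Fin.cons_succ, Cc, Finset.sum_mul]
    rw [Finset.sum_comm]
    have h : ∀ m'' : Fin r, ∑ j, Q m'' a * Q m'' t * Q' j m'' * Q m' j =
        Q m'' a * Q m'' t * (1 : Matrix (Fin r) (Fin r) k) m' m'' := by
      intro m''
      rw [← hQ, Matrix.mul_apply, Finset.mul_sum]
      exact Finset.sum_congr rfl fun j _ => by ring
    rw [Finset.sum_congr rfl fun m'' _ => h m'', Finset.sum_eq_single m']
    · simp
    · intro b _ hb
      rw [Matrix.one_apply_ne (Ne.symm hb), mul_zero]
    · intro h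
      exact absurd (Finset.mem_univ _) h

/-- the evaluation at the points -/
noncomputable def ev (Q : Matrix (Fin r) (Fin r) k) (e : Fin q → k) (w : Fin q → Fin r → k) (s : k) :
    Poly k (r + q) →ₐ[k] (Fin (r + 1) → k) := aeval (pt Q e w s)

theorem ev_B (Q : Matrix (Fin r) (Fin r) k) (e : Fin q → k) (w : Fin q → Fin r → k) (s : k)
    (i m : Fin (r + 1)) : ev Q e w s (B0 k r q i) m =
      Fin.cases (motive := fun _ => k) 1 (fun j => s * qq Q m j) i := by
  refine Fin.cases ?_ (fun j => ?_) i
  · simp [B0]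
  · simp [B0, ev, pt]

theorem coords_ev {Q Q' : Matrix (Fin r) (Fin r) k} (hQ : Q * Q' = 1) (e : Fin q → k)
    (w : Fin q → Fin r → k) (s : k) :
    HasCoords (B0 k r q) (RingHom.ker (ev Q e w s))
      (fun x => c0 k r q x + s * V (Cc Q Q') e w x + s ^ 2 * c2 (Cc Q Q') w x) := by
  refine hasCoords_ker _ fun l i => ?_
  funext m
  rw [Pi.mul_apply, Finset.sum_apply]
  simp only [Pi.smul_apply, smul_eq_mul, ev_B]
  have hX : ev Q e w s (X l) m = pt Q e w s l m := by simp [ev]
  rw [hX, Fin.sum_univ_succ]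
  have key := fun a t => Cc_key hQ a t m
  refine Fin.addCases (fun i' => ?_) (fun l' => ?_) l
  · refine Fin.cases ?_ (fun t => ?_) i
    · simp [pt, c0, V, c2, (Fin.succ_ne_zero _).symm]
    · simp only [pt, c0, V, c2, Fin.addCases_left, Fin.cases_succ, Fin.cases_zero, mul_zero, add_zero,
        zero_add, mul_one]
      have h1 : ∑ x, s * Cc Q Q' i' t x * (s * qq Q m x) = s * s * ∑ x, Cc Q Q' i' t x * qq Q m x := by
        rw [Finset.mul_sum]
        exact Finset.sum_congr rfl fun x _ => by ring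
      rw [h1, key]
      ring
  · refine Fin.cases ?_ (fun t => ?_) i
    · simp only [pt, c0, V, c2, Fin.addCases_right, Fin.cases_succ, Fin.cases_zero, mul_zero, add_zero,
        zero_add, mul_one]
      rw [Finset.mul_sum]
      congr 1
      exact Finset.sum_congr rfl fun x _ => by ring
    · simp only [pt, c0, V, c2, Fin.addCases_right, Fin.cases_succ, Fin.cases_zero, mul_zero, add_zero,
        zero_add, mul_one]
      have h1 : ∑ x, (s * (if x = t then e l' else 0) + s ^ 2 * ∑ a, w l' a * Cc Q Q' a t x) *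
          (s * qq Q m x) = s * e l' * (s * qq Q m t) +
          s ^ 3 * ∑ a, w l' a * ∑ x, Cc Q Q' a t x * qq Q m x := by
        have h2 : ∀ x, (s * (if x = t then e l' else 0) + s ^ 2 * ∑ a, w l' a * Cc Q Q' a t x) *
            (s * qq Q m x) = (if x = t then s * e l' * (s * qq Q m x) else 0) +
            ∑ a, s ^ 3 * (w l' a * (Cc Q Q' a t x * qq Q m x)) := by
          intro x
          rw [← Finset.mul_sum]
          have h3 : ∑ a, w l' a * (Cc Q Q' a t x * qq Q m x) =
              (∑ a, w l' a * Cc Q Q' a t x) * qq Q m x := by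
            rw [Finset.sum_mul]
            exact Finset.sum_congr rfl fun a _ => by ring
          rw [h3]
          split_ifs <;> ring
        rw [Finset.sum_congr rfl fun x _ => h2 x, Finset.sum_add_distrib, Finset.sum_ite_eq' Finset.univ t,
          if_pos (Finset.mem_univ t), Finset.sum_comm, Finset.mul_sum]
        congr 1
        refine Finset.sum_congr rfl fun a _ => ?_
        rw [Finset.mul_sum, Finset.mul_sum]
      rw [h1]
      simp only [key]
      have h4 : ∑ a, w l' a * (qq Q m a * qq Q m t) = (∑ a, w l' a * qq Q m a) * qq Q m t := by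
        rw [Finset.sum_mul]
        exact Finset.sum_congr rfl fun a _ => by ring
      have h5 : ∑ j, w l' j * (s * qq Q m j) = s * ∑ a, w l' a * qq Q m a := by
        rw [Finset.mul_sum]
        exact Finset.sum_congr rfl fun a _ => by ring
      rw [h4, h5]
      ring

theorem chart_ev {Q Q' : Matrix (Fin r) (Fin r) k} (hQ : Q * Q' = 1) (e : Fin q → k)
    (w : Fin q → Fin r → k) {s : k} (hs : s ≠ 0) :
    IsChart (B0 k r q) (RingHom.ker (ev Q e w s)) := by
  refine isChart_ker _ fun g => ?_
  have hQ2 : Q' * Q = 1 := mul_eq_one_comm.1 hQ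
  have key : ∀ a : Fin (r + 1) → k, (ev Q e w s g = ∑ i, a i • ev Q e w s (B0 k r q i)) ↔
      ∀ m, ev Q e w s g m = a 0 + ∑ j, a (Fin.succ j) * (s * qq Q m j) := by
    intro a
    rw [funext_iff]
    refine forall_congr' fun m => ?_
    rw [Finset.sum_apply]
    simp only [Pi.smul_apply, smul_eq_mul, ev_B]
    rw [Fin.sum_univ_succ]
    simp only [Fin.cases_zero, Fin.cases_succ, mul_one]
  set y := ev Q e w s g with hy
  have hz : ∀ a : Fin (r + 1) → k, (∀ m, y m = a 0 + ∑ j, a (Fin.succ j) * (s * qq Q m j)) ↔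
      (y 0 = a 0 ∧ Matrix.mulVec Q (fun j => s * a (Fin.succ j)) = fun m => y (Fin.succ m) - y 0) := by
    intro a
    constructor
    · intro h
      have h0 : y 0 = a 0 := by
        rw [h 0]
        simp [qq]
      refine ⟨h0, funext fun m => ?_⟩
      rw [h (Fin.succ m), h0]
      simp only [qq, Fin.cons_succ, Matrix.mulVec, dotProduct]
      rw [add_sub_cancel_left]
      exact Finset.sum_congr rfl fun j _ => by ring
    · rintro ⟨h0, h1⟩ m
      refine Fin.cases ?_ (fun m' => ?_) m
      · rw [h0]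
        simp [qq]
      · have h2 := congrFun h1 m'
        simp only [Matrix.mulVec, dotProduct] at h2
        simp only [qq, Fin.cons_succ]
        have h3 : ∑ x, Q m' x * (s * a x.succ) = ∑ x, a x.succ * (s * Q m' x) :=
          Finset.sum_congr rfl fun j _ => by ring
        rw [h3] at h2
        rw [h2, ← h0]
        ring
  refine ⟨Fin.cons (y 0) (fun j => s⁻¹ * Matrix.mulVec Q' (fun m => y (Fin.succ m) - y 0) j), ?_, ?_⟩
  · refine (key _).2 ((hz _).2 ⟨rfl, ?_⟩)
    simp only [Fin.cons_succ]
    have h1 : (fun j => s * (s⁻¹ * Matrix.mulVec Q' (fun m => y (Fin.succ m) - y 0) j)) =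
        Matrix.mulVec Q' (fun m => y (Fin.succ m) - y 0) := by
      funext j
      rw [← mul_assoc, mul_inv_cancel₀ hs, one_mul]
    rw [h1, Matrix.mulVec_mulVec, hQ, Matrix.one_mulVec]
  · intro a ha
    obtain ⟨h0, h1⟩ := (hz a).1 ((key a).1 ha)
    have h2 := congrArg (Matrix.mulVec Q') h1
    rw [Matrix.mulVec_mulVec, hQ2, Matrix.one_mulVec] at h2
    funext i
    refine Fin.cases ?_ (fun j => ?_) i
    · rw [Fin.cons_zero, h0]
    · rw [Fin.cons_succ, ← h2, ← mul_assoc, inv_mul_cancel₀ hs, one_mul]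

theorem radical_ev (Q : Matrix (Fin r) (Fin r) k) (e : Fin q → k)
    (w : Fin q → Fin r → k) (s : k) : (RingHom.ker (ev Q e w s)).IsRadical := by
  rintro x ⟨m, hm⟩
  rw [RingHom.mem_ker, map_pow] at hm
  rw [RingHom.mem_ker]
  exact IsNilpotent.eq_zero ⟨m, hm⟩

theorem V_mem [Infinite k] {Q Q' : Matrix (Fin r) (Fin r) k} (hQ : Q * Q' = 1) (e : Fin q → k)
    (w : Fin q → Fin r → k) : V (Cc Q Q') e w ∈ tangent (B0 k r q) (c0 k r q) ∧
      c0 k r q ∈ Smoothable (B0 k r q) :=
  of_curve _ _ (c2 (Cc Q Q') w) fun s hs =>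
    ⟨RingHom.ker (ev Q e w s), radical_ev Q e w s, chart_ev hQ e w hs, coords_ev hQ e w s⟩

end Pool.Agent.V8H91.HT
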