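import Pool.Agent.V8H91.HT.Low2

set_option autoImplicit false

namespace Pool.Agent.V8H91.HT

open MvPolynomial

variable {k : Type} [Field k] {r q : ℕ}

/-- the parameters of the tangent directions -/
abbrev Par (k : Type) (r q : ℕ) : Type := (Sym2 (Fin r) × Fin r → k) × (Fin q → k) × (Fin q × Fin r → k)

/-- the directions as a linear map of the parameters -/
def VL (k : Type) [Field k] (r q : ℕ) : Par k r q →ₗ[k] (Ix (r + q) (r + 1) → k) where
  toFun x := V (fun a t j => x.1 (s(a, t), j)) x.2.1 (fun l j => x.2.2 (l, j))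
  map_add' x y := by
    funext ⟨l, i, j⟩
    refine Fin.addCases (fun i' => ?_) (fun l' => ?_) l
    · refine Fin.cases ?_ (fun t => ?_) i
      · simp [V]
      · refine Fin.cases ?_ (fun j' => ?_) j
        · simp [V]
        · simp [V]
    · refine Fin.cases ?_ (fun t => ?_) i
      · refine Fin.cases ?_ (fun j' => ?_) j
        · simp [V]
        · simp [V]
      · refine Fin.cases ?_ (fun j' => ?_) j
        · simp [V]
        · by_cases h : j' = t
          · simp [V, h]
          · simp [V, h]
  map_smul' a x := by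
    funext ⟨l, i, j⟩
    refine Fin.addCases (fun i' => ?_) (fun l' => ?_) l
    · refine Fin.cases ?_ (fun t => ?_) i
      · simp [V]
      · refine Fin.cases ?_ (fun j' => ?_) j
        · simp [V]
        · simp [V]
    · refine Fin.cases ?_ (fun t => ?_) i
      · refine Fin.cases ?_ (fun j' => ?_) j
        · simp [V]
        · simp [V]
      · refine Fin.cases ?_ (fun j' => ?_) j
        · simp [V]
        · by_cases h : j' = t
          · simp [V, h]
          · simp [V, h]

theorem VL_injective : Function.Injective (VL k r q) := by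
  rw [injective_iff_map_eq_zero]
  rintro ⟨C, e, w⟩ h
  have hC : C = 0 := by
    funext ⟨s, j⟩
    induction s using Sym2.ind with
    | _ a t =>
      have h1 := congrFun h (Fin.castAdd q a, Fin.succ t, Fin.succ j)
      simpa [VL, V] using h1
  have he : e = 0 := by
    funext l
    have h1 := congrFun h (Fin.natAdd r l, 0, 0)
    simpa [VL, V] using h1
  have hw : w = 0 := by
    funext ⟨l, j⟩
    have h1 := congrFun h (Fin.natAdd r l, 0, Fin.succ j)
    simpa [VL, V] using h1
  rw [hC, he, hw]
  rfl

/-- the square of a vector -/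
def sq (x : Fin r → k) : Sym2 (Fin r) → k := Sym2.lift ⟨fun a t => x a * x t, fun a t => mul_comm _ _⟩

theorem sq_mk (x : Fin r → k) (a t : Fin r) : sq x s(a, t) = x a * x t := rfl

/-- the direction `x² ⊗ u` -/
def R (x u : Fin r → k) : Sym2 (Fin r) × Fin r → k := fun p => sq x p.1 * u p.2

theorem R_sub (x u u' : Fin r → k) : R x (u - u') = R x u - R x u' := by
  funext p
  simp only [R, Pi.sub_apply, mul_sub]

/-- the structure constants as a parameter -/
def cQ (Q Q' : Matrix (Fin r) (Fin r) k) : Sym2 (Fin r) × Fin r → k := fun p =>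
  ∑ m, sq (Q m) p.1 * Q' p.2 m

theorem VL_cQ (Q Q' : Matrix (Fin r) (Fin r) k) (e : Fin q → k) (w : Fin q × Fin r → k) :
    VL k r q (cQ Q Q', e, w) = V (Cc Q Q') e (fun l j => w (l, j)) := rfl

/-- the good parameters -/
noncomputable def good (k : Type) [Field k] (r q : ℕ) : Submodule k (Sym2 (Fin r) × Fin r → k) :=
  (tangent (B0 k r q) (c0 k r q)).comap (VL k r q ∘ₗ LinearMap.inl k _ _)

theorem mem_good {x : Sym2 (Fin r) × Fin r → k} : x ∈ good k r q ↔
    VL k r q (x, 0, 0) ∈ tangent (B0 k r q) (c0 k r q) := Iff.rfl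

theorem cQ_mem [Infinite k] {Q Q' : Matrix (Fin r) (Fin r) k} (hQ : Q * Q' = 1) :
    cQ Q Q' ∈ good k r q := by
  rw [mem_good, VL_cQ]
  exact (V_mem hQ 0 _).1

theorem R_mem [Infinite k] {Q Q' : Matrix (Fin r) (Fin r) k} (hQ : Q * Q' = 1) (a : Fin r) :
    R (Q a) (fun j => Q' j a) ∈ good k r q := by
  classical
  obtain ⟨τ, hτ⟩ := Set.Infinite.nonempty (Set.Finite.infinite_compl (Set.toFinite ({0, 1} : Set k)))
  have hτ0 : τ ≠ 0 := fun h => hτ (by rw [h]; simp)
  have hτ1 : τ ≠ 1 := fun h => hτ (by rw [h]; simp)
  let P : Matrix (Fin r) (Fin r) k := fun m j => if m = a then τ * Q m j else Q m j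
  let P' : Matrix (Fin r) (Fin r) k := fun j m => if m = a then τ⁻¹ * Q' j m else Q' j m
  have hP : P * P' = 1 := by
    ext m m'
    have h1 : (P * P') m m' = (if m = a then τ else 1) * (if m' = a then τ⁻¹ else 1) * (Q * Q') m m' := by
      rw [Matrix.mul_apply, Matrix.mul_apply, Finset.mul_sum]
      refine Finset.sum_congr rfl fun j _ => ?_
      simp only [P, P']
      split_ifs <;> ring
    rw [h1, hQ]
    by_cases hm : m = m'
    · rw [hm]
      by_cases ha : m' = a
      · rw [if_pos ha, if_pos ha, mul_inv_cancel₀ hτ0, one_mul]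
      · rw [if_neg ha, if_neg ha, one_mul, one_mul]
    · rw [Matrix.one_apply_ne hm, mul_zero]
  have h2 : cQ P P' - cQ Q Q' = (τ - 1) • R (Q a) (fun j => Q' j a) := by
    funext p
    obtain ⟨s, j⟩ := p
    induction s using Sym2.ind with
    | _ b t =>
      simp only [cQ, R, Pi.sub_apply, Pi.smul_apply, smul_eq_mul, sq_mk]
      rw [← Finset.sum_sub_distrib, Finset.sum_eq_single a]
      · simp only [P, P', if_pos rfl]
        field_simp
      · intro m _ hm
        simp only [P, P', if_neg hm]
        ring
      · intro h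
        exact absurd (Finset.mem_univ a) h
  have h3 : (τ - 1) • R (Q a) (fun j => Q' j a) ∈ good k r q := by
    rw [← h2]
    exact Submodule.sub_mem _ (cQ_mem hP) (cQ_mem hQ)
  have h4 := Submodule.smul_mem _ (τ - 1)⁻¹ h3
  rwa [smul_smul, inv_mul_cancel₀ (sub_ne_zero.2 hτ1), one_smul] at h4

theorem R_mem2 [Infinite k] (a : Fin r) (x y : Fin r → k) (hx : x a = 0) (hy : y a = 0)
    (hxy : ∑ j, x j * y j = 0) :
    R (Pi.single a 1 + x) (Pi.single a 1 - y) ∈ good k r q := by
  classical
  let ea : Fin r → k := Pi.single a 1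
  let N1 : Matrix (Fin r) (Fin r) k := Matrix.vecMulVec y ea
  let N2 : Matrix (Fin r) (Fin r) k := Matrix.vecMulVec ea x
  have n1 : N1 * N1 = 0 := by
    simp only [N1, Matrix.vecMulVec_mul_vecMulVec]
    simp [ea, hy]
  have n2 : N2 * N2 = 0 := by
    simp only [N2, Matrix.vecMulVec_mul_vecMulVec]
    simp [ea, hx]
  have hQ : ((1 + N1) * (1 + N2)) * ((1 - N2) * (1 - N1)) = 1 := by
    have e1 : (1 + N2) * (1 - N2) = 1 := by
      rw [mul_sub, mul_one, add_mul, one_mul, n2, add_zero, add_sub_cancel_right]
    have e2 : (1 + N1) * (1 - N1) = 1 := by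
      rw [mul_sub, mul_one, add_mul, one_mul, n1, add_zero, add_sub_cancel_right]
    rw [mul_assoc, ← mul_assoc (1 + N2), e1, one_mul, e2]
  have h1 := R_mem (q := q) hQ a
  have r1 : ((1 + N1) * (1 + N2)) a = Pi.single a 1 + x := by
    funext j
    rw [add_mul, one_mul, mul_add, mul_one]
    have e1 : N1 a j = 0 := by simp [N1, Matrix.vecMulVec_apply, hy]
    have e2 : (N1 * N2) a j = 0 := by
      simp only [N1, N2, Matrix.vecMulVec_mul_vecMulVec]
      simp [Matrix.vecMulVec_apply, hy]
    have e3 : N2 a j = x j := by simp [N2, Matrix.vecMulVec_apply, ea]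
    simp only [Matrix.add_apply, Pi.add_apply, e1, e2, e3]
    rw [Matrix.one_apply, Pi.single_apply]
    by_cases h : a = j
    · rw [if_pos h, if_pos h.symm]; ring
    · rw [if_neg h, if_neg (Ne.symm h)]; ring
  have r2 : (fun j => ((1 - N2) * (1 - N1)) j a) = Pi.single a 1 - y := by
    funext j
    rw [sub_mul, one_mul, mul_sub, mul_one]
    have e1 : N1 j a = y j := by simp [N1, Matrix.vecMulVec_apply, ea]
    have e3 : N2 j a = 0 := by simp [N2, Matrix.vecMulVec_apply, hx]
    have e2 : (N2 * N1) j a = 0 := by
      simp only [N1, N2, Matrix.vecMulVec_mul_vecMulVec]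
      have : x ⬝ᵥ y = 0 := hxy
      simp [Matrix.vecMulVec_apply, this]
    simp only [Matrix.sub_apply, Pi.sub_apply, e1, e2, e3]
    rw [Matrix.one_apply, Pi.single_apply]
    ring
  rw [r1, r2] at h1
  exact h1

theorem good_top [Infinite k] : good k r q = ⊤ := by
  classical
  have s0 : ∀ a : Fin r, R (Pi.single a (1 : k)) (Pi.single a 1) ∈ good k r q := by
    intro a
    have h := R_mem2 (k := k) (q := q) a 0 0 rfl rfl (by simp)
    rwa [add_zero, sub_zero] at h
  have s1 : ∀ a c : Fin r, R (Pi.single a (1 : k)) (Pi.single c 1) ∈ good k r q := by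
    intro a c
    by_cases hac : a = c
    · rw [← hac]; exact s0 a
    have h := R_mem2 (k := k) (q := q) a 0 (Pi.single c 1) rfl (Pi.single_eq_of_ne hac _) (by simp)
    rw [add_zero, R_sub] at h
    have h2 := Submodule.sub_mem _ (s0 a) h
    rwa [sub_sub_cancel] at h2
  have s2 : ∀ a b : Fin r, a ≠ b →
      R (Pi.single a (1 : k) + Pi.single b 1) (Pi.single a 1) ∈ good k r q := by
    intro a b hab
    have h := R_mem2 (k := k) (q := q) a (Pi.single b 1) 0 (Pi.single_eq_of_ne hab _) rfl (by simp)
    rwa [sub_zero] at h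
  have s3 : ∀ a b c : Fin r, a ≠ b →
      R (Pi.single a (1 : k) + Pi.single b 1) (Pi.single c 1) ∈ good k r q := by
    intro a b c hab
    by_cases hac : c = a
    · rw [hac]; exact s2 a b hab
    by_cases hbc : c = b
    · rw [hbc, add_comm]; exact s2 b a (Ne.symm hab)
    have h := R_mem2 (k := k) (q := q) a (Pi.single b 1) (Pi.single c 1) (Pi.single_eq_of_ne hab _)
      (Pi.single_eq_of_ne (Ne.symm hac) _) (by
        rw [Finset.sum_eq_single b]
        · rw [Pi.single_eq_of_ne (Ne.symm hbc), mul_zero]
        · intro j _ hj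
          rw [Pi.single_eq_of_ne hj, zero_mul]
        · intro h
          exact absurd (Finset.mem_univ b) h)
    rw [R_sub] at h
    have h2 := Submodule.sub_mem _ (s2 a b hab) h
    rwa [sub_sub_cancel] at h2
  have s4 : ∀ p : Sym2 (Fin r) × Fin r, (fun p' => if p = p' then (1 : k) else 0) ∈ good k r q := by
    rintro ⟨s, c⟩
    induction s using Sym2.ind with
    | _ a b =>
      by_cases hab : a = b
      · have e : (fun p' : Sym2 (Fin r) × Fin r => if (s(a, b), c) = p' then (1 : k) else 0) =
            R (Pi.single a 1) (Pi.single c 1) := by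
          funext ⟨s', j⟩
          induction s' using Sym2.ind with
          | _ i t =>
            simp only [R, sq_mk, Pi.single_apply, Prod.mk.injEq, Sym2.eq_iff, ← hab]
            by_cases h1 : i = a <;> by_cases h2 : t = a <;> by_cases h3 : j = c <;>
              simp [h1, h2, h3, eq_comm] <;> tauto
        rw [e]
        exact s1 a c
      · have e : (fun p' : Sym2 (Fin r) × Fin r => if (s(a, b), c) = p' then (1 : k) else 0) =
            R (Pi.single a 1 + Pi.single b 1) (Pi.single c 1) - R (Pi.single a 1) (Pi.single c 1) -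
              R (Pi.single b 1) (Pi.single c 1) := by
          funext ⟨s', j⟩
          induction s' using Sym2.ind with
          | _ i t =>
            have hba : b ≠ a := Ne.symm hab
            simp only [R, sq_mk, Pi.single_apply, Prod.mk.injEq, Sym2.eq_iff, Pi.sub_apply, Pi.add_apply]
            by_cases h3 : j = c
            · subst h3
              by_cases h1 : i = a
              · subst h1
                by_cases h2 : t = i
                · subst h2
                  simp [hab, hba]
                · by_cases h4 : t = b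
                  · subst h4
                    simp [hab, hba]
                  · simp [hab, h2, h4, Ne.symm h4, Ne.symm h2]
              · by_cases h5 : i = b
                · subst h5
                  by_cases h2 : t = a
                  · subst h2
                    simp [h1, Ne.symm h1]
                  · simp [h1, h2, Ne.symm h1, Ne.symm h2]
                · simp [h1, h5, Ne.symm h1, Ne.symm h5]
            · simp [h3, Ne.symm h3]
        rw [e]
        exact Submodule.sub_mem _ (Submodule.sub_mem _ (s3 a b c hab) (s1 a c)) (s1 b c)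
  rw [eq_top_iff]
  intro f _
  rw [pi_eq_sum_univ f]
  exact Submodule.sum_mem _ fun p _ => Submodule.smul_mem _ _ (s4 p)

theorem VL_mem [Infinite k] (x : Par k r q) : VL k r q x ∈ tangent (B0 k r q) (c0 k r q) := by
  obtain ⟨C, e, w⟩ := x
  have h1 : VL k r q (cQ (1 : Matrix (Fin r) (Fin r) k) 1, e, w) ∈ tangent (B0 k r q) (c0 k r q) := by
    rw [VL_cQ]
    exact (V_mem (mul_one _) e _).1
  have h2 : (C - cQ (1 : Matrix (Fin r) (Fin r) k) 1) ∈ good k r q := by
    rw [good_top]; trivial
  rw [mem_good] at h2
  have h3 := Submodule.add_mem _ h2 h1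
  rw [← map_add] at h3
  simpa using h3

/-- **Lower bound for the tangent space at the square-zero point.** -/
theorem le_finrank [Infinite k] : (r + 1).choose 2 * r + (q + q * r) ≤
    Module.finrank k (tangent (B0 k r q) (c0 k r q)) := by
  let L : Par k r q →ₗ[k] tangent (B0 k r q) (c0 k r q) :=
    LinearMap.codRestrict _ (VL k r q) VL_mem
  have hL : Function.Injective L := by
    intro x y h
    exact VL_injective (congrArg Subtype.val h)
  have h := LinearMap.finrank_le_finrank_of_injective hL
  rw [Module.finrank_prod, Module.finrank_prod, Module.finrank_fintype_fun_eq_card,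
    Module.finrank_fintype_fun_eq_card, Module.finrank_fintype_fun_eq_card, Fintype.card_prod,
    Fintype.card_prod, Sym2.card, Fintype.card_fin, Fintype.card_fin] at h
  exact h

end Pool.Agent.V8H91.HT
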