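import Pool.Agent.V8H91.HT.Up3

set_option autoImplicit false

namespace Pool.Agent.V8H91.HT

open MvPolynomial

variable {k : Type} [Field k] {n d : ℕ} {B : Fin d → Poly k n} {I : Ideal (Poly k n)}
  {c : Ix n d → k} {i0 : Fin d}

theorem G_add (h0 : B i0 = 1) (v v' : Ix n d → k) (η η' : (Poly k n ⧸ I) →ₗ[k] (Poly k n ⧸ I))
    (i m : Fin d) : G I c h0 (v + v') (η + η') i m = G I c h0 v η i m + G I c h0 v' η' i m := by
  unfold G
  simp only [map_add, LinearMap.add_apply, mul_add]
  abel

theorem G_smul (h0 : B i0 = 1) (a : k) (v : Ix n d → k) (η : (Poly k n ⧸ I) →ₗ[k] (Poly k n ⧸ I))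
    (i m : Fin d) : G I c h0 (a • v) (a • η) i m = a • G I c h0 v η i m := by
  unfold G
  simp only [map_smul, LinearMap.smul_apply, mul_smul_comm, smul_add, smul_sub]

theorem Psi_add' (h0 : B i0 = 1) (v v' : Ix n d → k) (η η' : (Poly k n ⧸ I) →ₗ[k] (Poly k n ⧸ I))
    (g : Poly k n) : Psi I c h0 (v + v') (η + η') g = Psi I c h0 v η g + Psi I c h0 v' η' g := by
  unfold Psi
  simp only [map_add, LinearMap.add_apply]
  abel

theorem Psi_smul' (h0 : B i0 = 1) (a : k) (v : Ix n d → k)
    (η : (Poly k n ⧸ I) →ₗ[k] (Poly k n ⧸ I)) (g : Poly k n) :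
    Psi I c h0 (a • v) (a • η) g = a • Psi I c h0 v η g := by
  unfold Psi
  simp only [map_smul, LinearMap.smul_apply, smul_add]

/-- the images of the basis under `η` -/
noncomputable def E (B : Fin d → Poly k n) (I : Ideal (Poly k n)) (i0 : Fin d) :
    ({i : Fin d // i ≠ i0} × Fin d → k) →ₗ[k] (Fin d → Poly k n ⧸ I) where
  toFun h i := if hi : i = i0 then 0 else ∑ j, h (⟨i, hi⟩, j) • Ideal.Quotient.mk I (B j)
  map_add' h h' := by
    funext i
    by_cases hi : i = i0
    · simp only [dif_pos hi, Pi.add_apply, add_zero]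
    · simp only [dif_neg hi, Pi.add_apply, add_smul, Finset.sum_add_distrib]
  map_smul' a h := by
    funext i
    by_cases hi : i = i0
    · simp only [dif_pos hi, Pi.smul_apply, smul_zero]
    · simp only [dif_neg hi, Pi.smul_apply, smul_eq_mul, Finset.smul_sum, smul_smul, RingHom.id_apply]

/-- the map `η` -/
noncomputable def eta (hB : IsChart B I) (i0 : Fin d) :
    ({i : Fin d // i ≠ i0} × Fin d → k) →ₗ[k] ((Poly k n ⧸ I) →ₗ[k] (Poly k n ⧸ I)) :=
  ((basis hB).constr k).toLinearMap ∘ₗ E B I i0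

theorem eta_apply (hB : IsChart B I) (h : {i : Fin d // i ≠ i0} × Fin d → k) (i : Fin d) :
    eta hB i0 h (Ideal.Quotient.mk I (B i)) = E B I i0 h i := by
  rw [← basis_apply hB]
  unfold eta
  rw [LinearMap.comp_apply]
  exact (basis hB).constr_basis k _ i

/-- the linear map whose injectivity gives the bound -/
noncomputable def bigL (h0 : B i0 = 1) (hB : IsChart B I) (c : Ix n d → k) :
    (tangent B c × ({i : Fin d // i ≠ i0} × Fin d → k)) →ₗ[k]
      ((Sym2 {i : Fin d // i ≠ i0} × {i : Fin d // i ≠ i0} → k) × (Fin n × Fin d → k)) where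
  toFun x := (fun p => (basis hB).repr (G I c h0 (x.1 : Ix n d → k) (eta hB i0 x.2)
      (Quot.out p.1).1 (Quot.out p.1).2) p.2,
    fun p => (basis hB).repr (Psi I c h0 (x.1 : Ix n d → k) (eta hB i0 x.2) (X p.1)) p.2)
  map_add' x y := by
    refine Prod.ext (funext fun p => ?_) (funext fun p => ?_)
    · simp only [Prod.fst_add, Prod.snd_add, Submodule.coe_add, map_add, G_add, Finsupp.add_apply,
        Pi.add_apply]
    · simp only [Prod.fst_add, Prod.snd_add, Submodule.coe_add, map_add, Psi_add', Finsupp.add_apply,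
        Pi.add_apply]
  map_smul' a x := by
    refine Prod.ext (funext fun p => ?_) (funext fun p => ?_)
    · simp only [Prod.smul_fst, Prod.smul_snd, Submodule.coe_smul, map_smul, G_smul,
        Finsupp.smul_apply, Pi.smul_apply, RingHom.id_apply]
    · simp only [Prod.smul_fst, Prod.smul_snd, Submodule.coe_smul, map_smul, Psi_smul',
        Finsupp.smul_apply, Pi.smul_apply, RingHom.id_apply]

theorem bigL_injective (h0 : B i0 = 1) (hB : IsChart B I) (hI : HasCoords B I c) (hd : 3 ≤ d) :
    Function.Injective (bigL h0 hB c) := by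
  rw [injective_iff_map_eq_zero]
  rintro ⟨⟨v, hv⟩, h⟩ hL
  have h1 : ∀ p : Sym2 {i : Fin d // i ≠ i0} × {i : Fin d // i ≠ i0},
      (basis hB).repr (G I c h0 v (eta hB i0 h) (Quot.out p.1).1 (Quot.out p.1).2) p.2 = 0 :=
    fun p => congrFun (congrArg Prod.fst hL) p
  have h2 : ∀ p : Fin n × Fin d,
      (basis hB).repr (Psi I c h0 v (eta hB i0 h) (X p.1)) p.2 = 0 :=
    fun p => congrFun (congrArg Prod.snd hL) p
  have hz : eta hB i0 h (Ideal.Quotient.mk I (B i0)) = 0 := by
    rw [eta_apply]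
    exact dif_pos rfl
  have hG1 : ∀ m, G I c h0 v (eta hB i0 h) i0 m = 0 := by
    intro m
    unfold G
    rw [hz, mul_zero, sub_zero, h0, one_mul, map_one, one_mul, psi_B h0 hv, one_mul, sub_self, add_zero]
  have hG2 : ∀ i m : Fin d, i ≠ i0 → m ≠ i0 → ∀ j, j ≠ i0 →
      (basis hB).repr (G I c h0 v (eta hB i0 h) i m) j = 0 := by
    intro i m hi hm j hj
    have e1 := h1 (s((⟨i, hi⟩ : {i : Fin d // i ≠ i0}), ⟨m, hm⟩), ⟨j, hj⟩)
    have e2 : s((Quot.out s((⟨i, hi⟩ : {i : Fin d // i ≠ i0}), ⟨m, hm⟩)).1,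
        (Quot.out s((⟨i, hi⟩ : {i : Fin d // i ≠ i0}), ⟨m, hm⟩)).2) =
        s((⟨i, hi⟩ : {i : Fin d // i ≠ i0}), ⟨m, hm⟩) := Quot.out_eq _
    rcases Sym2.eq_iff.1 e2 with ⟨e3, e4⟩ | ⟨e3, e4⟩
    · rw [e3, e4] at e1
      exact e1
    · rw [e3, e4, G_symm] at e1
      exact e1
  have hG3 : ∀ i m, G I c h0 v (eta hB i0 h) i m =
      (basis hB).repr (G I c h0 v (eta hB i0 h) i m) i0 • (1 : Poly k n ⧸ I) := by
    intro i m
    by_cases hi : i = i0
    · rw [hi, hG1]; simp
    by_cases hm : m = i0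
    · rw [hm, G_symm, hG1]; simp
    refine (basis hB).ext_elem fun j => ?_
    have e1 : (1 : Poly k n ⧸ I) = basis hB i0 := by rw [basis_apply, h0, map_one]
    rw [e1, map_smul, Finsupp.smul_apply, Module.Basis.repr_self, smul_eq_mul]
    by_cases hj : j = i0
    · rw [hj, Finsupp.single_eq_same, mul_one]
    · rw [hG2 i m hi hm j hj, Finsupp.single_eq_of_ne hj, mul_zero]
  have hG4 : ∀ i m, G I c h0 v (eta hB i0 h) i m = 0 := by
    intro i m
    by_cases hi : i = i0
    · rw [hi, hG1]
    · rw [hG3, Psi_cocycle h0 hB hI hd hv (eta hB i0 h) _ hG3 hi m, zero_smul]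
  have hX : ∀ l, Psi I c h0 v (eta hB i0 h) (X l) = 0 := by
    intro l
    refine (basis hB).ext_elem fun j => ?_
    rw [h2 (l, j), map_zero]
    rfl
  have hP : ∀ g, Psi I c h0 v (eta hB i0 h) g = 0 := by
    intro g
    induction g using MvPolynomial.induction_on with
    | C a =>
      have e1 : Ideal.Quotient.mk I (C a) = a • Ideal.Quotient.mk I (B i0) := by
        rw [h0, ← mk_C_mul, mul_one]
      unfold Psi
      rw [psi_C h0 hv, e1, map_smul, hz, smul_zero, add_zero]
    | add p q hp hq =>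
      unfold Psi at hp hq ⊢
      rw [psi_add h0 hv, map_add, map_add, add_add_add_comm, hp, hq, add_zero]
    | mul_X p l hp =>
      rw [Psi_mul h0 hI hv, hp, hX, mul_zero, mul_zero, zero_add, zero_add]
      refine Finset.sum_eq_zero fun i _ => Finset.sum_eq_zero fun m _ => ?_
      rw [hG4, smul_zero]
  have hη : ∀ i, E B I i0 h i = 0 := by
    intro i
    have e1 := hP (B i)
    unfold Psi at e1
    rw [psi_B h0 hv, zero_add, eta_apply] at e1
    exact e1
  have hh : h = 0 := by
    funext p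
    obtain ⟨⟨i, hi⟩, j⟩ := p
    have e1 := hη i
    have e2 : E B I i0 h i = ∑ j, h (⟨i, hi⟩, j) • basis hB j := by
      simp only [basis_apply]
      exact dif_neg hi
    rw [e2] at e1
    have e3 := (basis hB).repr_sum_self (fun j => h (⟨i, hi⟩, j))
    rw [e1] at e3
    have e4 := congrFun e3 j
    simpa using e4.symm
  have hv0 : v = 0 := by
    funext p
    obtain ⟨l, i, j⟩ := p
    have e1 := hP (X l * B i)
    unfold Psi at e1
    rw [hh, map_zero, LinearMap.zero_apply, add_zero, psi_XB h0 hv] at e1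
    simp only [← basis_apply hB] at e1
    have e3 := (basis hB).repr_sum_self (fun j => v (l, i, j))
    rw [e1] at e3
    have e4 := congrFun e3 j
    simpa using e4.symm
  subst hh
  subst hv0
  rfl

/-- **Upper bound for the tangent spaces of the smoothable component.** -/
theorem finrank_le (h0 : B i0 = 1) (hB : IsChart B I) (hI : HasCoords B I c) (hd : 3 ≤ d) :
    Module.finrank k (tangent B c) + (d - 1) * d ≤ d.choose 2 * (d - 1) + n * d := by
  have h := LinearMap.finrank_le_finrank_of_injective (bigL_injective h0 hB hI hd)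
  have hκ : Fintype.card {i : Fin d // i ≠ i0} = d - 1 := by
    have := Fintype.card_subtype_compl (fun i : Fin d => i = i0)
    simpa using this
  rw [Module.finrank_prod, Module.finrank_prod, Module.finrank_fintype_fun_eq_card,
    Module.finrank_fintype_fun_eq_card, Module.finrank_fintype_fun_eq_card, Fintype.card_prod,
    Fintype.card_prod, Fintype.card_prod, Sym2.card, hκ, Fintype.card_fin, Fintype.card_fin,
    Nat.sub_add_cancel (by omega)] at h
  exact h

end Pool.Agent.V8H91.HT
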