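import Pool.Agent.V8H91.HT.Low3
import Pool.Agent.V8H91.HT.Up4

set_option autoImplicit false

namespace Pool.Agent.V8H91.HT

open MvPolynomial

variable {k : Type} [Field k] {r q : ℕ}

/-- the square-zero algebra -/
abbrev Sz (k : Type) [Field k] (r : ℕ) : Type := TrivSqZeroExt k (Fin r → k)

/-- the homomorphism to the square-zero algebra -/
noncomputable def ph (k : Type) [Field k] (r q : ℕ) : Poly k (r + q) →ₐ[k] Sz k r :=
  aeval (fun l => Fin.addCases (motive := fun _ => Sz k r)
    (fun i => TrivSqZeroExt.inr (Pi.single i 1)) (fun _ => 0) l)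

theorem ph_castAdd (i : Fin r) : ph k r q (X (Fin.castAdd q i)) =
    TrivSqZeroExt.inr (Pi.single i (1 : k)) := by
  simp [ph]

theorem ph_natAdd (l : Fin q) : ph k r q (X (Fin.natAdd r l)) = 0 := by
  simp [ph]

theorem ph_B0 : ph k r q (B0 k r q 0) = 1 := by
  simp [B0]

theorem ph_Bs (i : Fin r) : ph k r q (B0 k r q (Fin.succ i)) =
    TrivSqZeroExt.inr (Pi.single i (1 : k)) := by
  simp only [B0, Fin.cons_succ]
  exact ph_castAdd i

theorem ph_sum (a : Fin (r + 1) → k) : ∑ i, a i • ph k r q (B0 k r q i) =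
    TrivSqZeroExt.inl (a 0) + TrivSqZeroExt.inr (fun j => a (Fin.succ j)) := by
  rw [Fin.sum_univ_succ, ph_B0]
  simp only [ph_Bs]
  have h1 : a 0 • (1 : Sz k r) = TrivSqZeroExt.inl (a 0) := by
    rw [← TrivSqZeroExt.inl_one, ← TrivSqZeroExt.inl_smul, smul_eq_mul, mul_one]
  have h2 : ∑ i : Fin r, a (Fin.succ i) • (TrivSqZeroExt.inr (Pi.single i (1 : k)) : Sz k r) =
      TrivSqZeroExt.inr (fun j => a (Fin.succ j)) := by
    simp only [← TrivSqZeroExt.inr_smul]
    rw [← TrivSqZeroExt.inr_sum]
    congr 1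
    funext j
    rw [Finset.sum_apply, Finset.sum_eq_single j]
    · simp
    · intro b _ hb
      rw [Pi.smul_apply, Pi.single_eq_of_ne (Ne.symm hb), smul_zero]
    · intro h
      exact absurd (Finset.mem_univ j) h
  rw [h1, h2]

theorem chart_zero : IsChart (B0 k r q) (RingHom.ker (ph k r q)) := by
  refine isChart_ker _ fun g => ?_
  refine ⟨Fin.cons (ph k r q g).fst (ph k r q g).snd, ?_, fun a ha => ?_⟩
  · beta_reduce
    rw [ph_sum]
    simp only [Fin.cons_zero, Fin.cons_succ]
    exact (TrivSqZeroExt.inl_fst_add_inr_snd_eq _).symm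
  · beta_reduce at ha
    rw [ph_sum] at ha
    rw [ha]
    funext i
    refine Fin.cases ?_ (fun j => ?_) i
    · simp
    · simp

theorem coords_zero : HasCoords (B0 k r q) (RingHom.ker (ph k r q)) (c0 k r q) := by
  refine hasCoords_ker _ fun l i => ?_
  rw [ph_sum]
  refine Fin.addCases (fun i' => ?_) (fun l' => ?_) l
  · rw [ph_castAdd]
    refine Fin.cases ?_ (fun t => ?_) i
    · rw [ph_B0, mul_one]
      simp only [c0, Fin.addCases_left, Fin.cases_zero]
      rw [if_neg (Fin.succ_ne_zero i').symm, TrivSqZeroExt.inl_zero, zero_add]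
      congr 1
      funext j
      rw [Pi.single_apply]
      by_cases h : j = i'
      · rw [if_pos h, if_pos (by rw [h])]
      · rw [if_neg h, if_neg (fun h1 => h (Fin.succ_injective _ h1))]
    · rw [ph_Bs]
      simp only [c0, Fin.addCases_left, Fin.cases_succ]
      rw [TrivSqZeroExt.inr_mul_inr, TrivSqZeroExt.inl_zero, zero_add]
      exact (TrivSqZeroExt.inr_zero k).symm
  · rw [ph_natAdd, zero_mul]
    simp only [c0, Fin.addCases_right]
    rw [TrivSqZeroExt.inl_zero, zero_add]
    exact (TrivSqZeroExt.inr_zero k).symm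

theorem B0_zero : B0 k r q 0 = 1 := rfl

/-- the dimension of the tangent space at the square-zero point -/
theorem finrank_zero [Infinite k] (hr : 2 ≤ r) :
    Module.finrank k (tangent (B0 k r q) (c0 k r q)) = (r + 1).choose 2 * r + q * (r + 1) := by
  have h1 := finrank_le (B0_zero (k := k) (r := r) (q := q)) chart_zero coords_zero (by omega)
  have h2 := le_finrank (k := k) (r := r) (q := q)
  rw [Nat.add_sub_cancel] at h1
  have h3 : (r + q) * (r + 1) = r * (r + 1) + (q + q * r) := by ring
  have h4 : q * (r + 1) = q + q * r := by ring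
  rw [h4]
  omega

theorem mem_smoothable [Infinite k] : c0 k r q ∈ Smoothable (B0 k r q) :=
  (V_mem (mul_one (1 : Matrix (Fin r) (Fin r) k)) 0 0).2

end Pool.Agent.V8H91.HT
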