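import Pool.Agent.V8H91.HT.Core
import Pool.Agent.V8H91.HT.Comp
import Pool.Agent.V8H91.HT.Zero

set_option autoImplicit false

namespace Pool.Agent.V8H91.HT

open MvPolynomial

variable {k : Type} [Field k] {r q : ℕ}

/-- the target of the variables -/
noncomputable def Y (B : Fin (r + 1) → Poly k (r + q)) : Fin (r + q) → Poly k (r + q) := fun l =>
  Fin.addCases (motive := fun _ => Poly k (r + q)) (fun i => B (Fin.succ i)) (fun _ => 0) l

/-- the family of endomorphisms -/
noncomputable def al (B : Fin (r + 1) → Poly k (r + q)) (p : k) : Poly k (r + q) →ₐ[k] Poly k (r + q) :=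
  aeval (fun l => X l + C p * (Y B l - X l))

theorem al_X (B : Fin (r + 1) → Poly k (r + q)) (p : k) (l : Fin (r + q)) :
    al B p (X l) = X l + C p * (Y B l - X l) := by
  simp [al]

/-- the reduction -/
noncomputable def re (B : Fin (r + 1) → Poly k (r + q)) (J : Ideal (Poly k (r + q))) (p : k) :
    Poly k (r + q) →ₐ[k] (Poly k (r + q) ⧸ J) := (Ideal.Quotient.mkₐ k J).comp (al B p)

theorem re_apply (B : Fin (r + 1) → Poly k (r + q)) (J : Ideal (Poly k (r + q))) (p : k)
    (g : Poly k (r + q)) : re B J p g = Ideal.Quotient.mk J (al B p g) := rfl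

/-- dependence on the parameter is polynomial -/
theorem exists_p (B : Fin (r + 1) → Poly k (r + q)) {J : Ideal (Poly k (r + q))} (hB : IsChart B J)
    (g : Poly k (r + q)) : ∃ h : Fin (r + 1) → Polynomial k, ∀ p,
      re B J p g = ∑ j, (h j).eval p • Ideal.Quotient.mk J (B j) := by
  induction g using MvPolynomial.induction_on with
  | C a =>
    obtain ⟨x, hx⟩ := chart_ex hB (C a)
    refine ⟨fun j => Polynomial.C (x j), fun p => ?_⟩
    rw [re_apply]
    have e1 : al B p (C a) = C a := by
      unfold al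
      rw [aeval_C]
      rfl
    rw [e1, hx]
    exact Finset.sum_congr rfl fun j _ => by rw [Polynomial.eval_C]
  | add f g hf hg =>
    obtain ⟨h1, H1⟩ := hf
    obtain ⟨h2, H2⟩ := hg
    refine ⟨fun j => h1 j + h2 j, fun p => ?_⟩
    rw [map_add, H1, H2, ← Finset.sum_add_distrib]
    exact Finset.sum_congr rfl fun j _ => by rw [Polynomial.eval_add, add_smul]
  | mul_X f l hf =>
    obtain ⟨h1, H1⟩ := hf
    choose x hx using fun i => chart_ex hB (B i * X l)
    choose y hy using fun i => chart_ex hB (B i * (Y B l - X l))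
    refine ⟨fun j => ∑ i, h1 i * (Polynomial.C (x i j) + Polynomial.X * Polynomial.C (y i j)),
      fun p => ?_⟩
    rw [map_mul, H1, re_apply, al_X, Finset.sum_mul]
    have h2 : ∀ i, (h1 i).eval p • Ideal.Quotient.mk J (B i) *
        Ideal.Quotient.mk J (X l + C p * (Y B l - X l)) =
        ∑ j, ((h1 i).eval p * (x i j + p * y i j)) • Ideal.Quotient.mk J (B j) := by
      intro i
      rw [smul_mul_assoc, ← map_mul]
      have h3 : B i * (X l + C p * (Y B l - X l)) = B i * X l + C p * (B i * (Y B l - X l)) := by ring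
      rw [h3, map_add, mk_C_mul, hx, hy, Finset.smul_sum, ← Finset.sum_add_distrib, Finset.smul_sum]
      refine Finset.sum_congr rfl fun j _ => ?_
      rw [smul_smul, ← add_smul, smul_smul]
    rw [Finset.sum_congr rfl fun i _ => h2 i, Finset.sum_comm]
    refine Finset.sum_congr rfl fun j _ => ?_
    rw [← Finset.sum_smul, Polynomial.eval_finset_sum]
    congr 1
    refine Finset.sum_congr rfl fun i _ => ?_
    simp only [Polynomial.eval_mul, Polynomial.eval_add, Polynomial.eval_C, Polynomial.eval_X]

/-- admissible parameters -/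
def adm (B : Fin (r + 1) → Poly k (r + q)) (p : k) (J : Hilb k (r + 1) (r + q)) : Prop :=
  ∃ B' : Fin (r + 1) → Poly k (r + q), (∃ i, B' i = 1) ∧ IsChart B' (RingHom.ker (re B J.1 p))

open Classical in
/-- the moved point -/
noncomputable def Phi (B : Fin (r + 1) → Poly k (r + q)) (p : k) (J : Hilb k (r + 1) (r + q)) :
    Hilb k (r + 1) (r + q) :=
  if h : adm B p J then ⟨RingHom.ker (re B J.1 p), h⟩ else J

theorem Phi_val {B : Fin (r + 1) → Poly k (r + q)} {p : k} {J : Hilb k (r + 1) (r + q)}
    (h : adm B p J) : (Phi B p J).1 = RingHom.ker (re B J.1 p) := by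
  unfold Phi
  rw [dif_pos h]

theorem re_zero (B : Fin (r + 1) → Poly k (r + q)) (J : Ideal (Poly k (r + q))) :
    RingHom.ker (re B J 0) = J := by
  have h1 : re B J 0 = Ideal.Quotient.mkₐ k J := by
    refine MvPolynomial.algHom_ext fun l => ?_
    rw [re_apply, al_X]
    simp
  rw [h1]
  exact Ideal.Quotient.mkₐ_ker k J

/-- for a fixed point: closed conditions on the parameter are polynomial -/
theorem param_closed [Infinite k] (B : Fin (r + 1) → Poly k (r + q)) {J : Hilb k (r + 1) (r + q)}
    (hB : IsChart B J.1) {Z : Set (Hilb k (r + 1) (r + q))} (hZ : IsClosed Z)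
    (hinf : {p | adm B p J ∧ Phi B p J ∈ Z}.Infinite) {p0 : k} (hp0 : adm B p0 J) :
    Phi B p0 J ∈ Z := by
  obtain ⟨B', hB', hch⟩ := id hp0
  choose h hh using fun g => exists_p B hB g
  obtain ⟨H, hH⟩ := family (k := k) (R := Polynomial k) (fun i j => h (B' i) j)
    (fun p => h (X p.1 * B' p.2.1) p.2.2) hZ B' hB'
  have key : ∀ p g j, Polynomial.aeval p (h g j) = (basis hB).repr (re B J.1 p g) j := by
    intro p g j
    rw [hh]
    simp only [← basis_apply hB]
    rw [Polynomial.coe_aeval_eq_eval]
    exact (congrFun ((basis hB).repr_sum_self (fun j => (h g j).eval p)) j).symm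
  have hdet : ∀ p, Polynomial.aeval p (Matrix.det (fun i j => h (B' i) j)) =
      (Mt (basis hB) (re B J.1 p) B').det := fun p =>
    (fam_coords (k := k) (fun i j => h (B' i) j) (fun p => h (X p.1 * B' p.2.1) p.2.2) B'
      (Polynomial.aeval p) (basis hB) (re B J.1 p) (fun i j => key p (B' i) j)
      (fun l i j => key p (X l * B' i) j)).1
  have hD0 : Polynomial.aeval p0 (Matrix.det (fun i j => h (B' i) j)) ≠ 0 := by
    rw [hdet]
    exact (chart_iff (basis hB) (re B J.1 p0) B').1 hch
  have hD : Matrix.det (fun i j => h (B' i) j) ≠ 0 := by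
    intro h0
    rw [h0, map_zero] at hD0
    exact hD0 rfl
  rw [hH (Polynomial.aeval p0) _ _ _ (basis hB) (re B J.1 p0) (fun i j => key p0 (B' i) j)
    (fun l i j => key p0 (X l * B' i) j) hD0 _ (Phi_val hp0)]
  intro f hf
  have hf0 : f = 0 := by
    refine Polynomial.eq_zero_of_infinite_isRoot _ ?_
    have hfin : {p | Polynomial.IsRoot (Matrix.det (fun i j => h (B' i) j)) p}.Finite :=
      Polynomial.finite_setOf_isRoot hD
    refine (hinf.diff hfin).mono ?_
    rintro p ⟨⟨hp1, hp2⟩, hp3⟩
    have hDp : Polynomial.aeval p (Matrix.det (fun i j => h (B' i) j)) ≠ 0 := by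
      rw [Polynomial.coe_aeval_eq_eval]
      exact hp3
    have h1 := (hH (Polynomial.aeval p) _ _ _ (basis hB) (re B J.1 p) (fun i j => key p (B' i) j)
      (fun l i j => key p (X l * B' i) j) hDp _ (Phi_val hp1)).1 hp2 f hf
    rw [Polynomial.coe_aeval_eq_eval] at h1
    exact h1
  rw [hf0, map_zero]

end Pool.Agent.V8H91.HT
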