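import Pool.Agent.V8H91.HT.Step

set_option autoImplicit false

namespace Pool.Agent.V8H91.HT

open MvPolynomial

variable {k : Type} [Field k] {r q : ℕ}

theorem isOpen_chart {n d : ℕ} (B : Fin d → Poly k n) : IsOpen {I : Hilb k d n | IsChart B I.1} := by
  have h := isOpen_locus B ({1} : Set (MvPolynomial (Ix n d) k))
  convert h using 1
  ext I
  constructor
  · intro hI
    obtain ⟨c, hc⟩ := exists_coords hI
    exact ⟨c, hI, hc, 1, rfl, by rw [map_one]; exact one_ne_zero⟩
  · rintro ⟨c, hI, -, -⟩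
    exact hI

theorem adm_infinite [Infinite k] (B : Fin (r + 1) → Poly k (r + q)) (h0 : B 0 = 1)
    {J : Hilb k (r + 1) (r + q)} (hB : IsChart B J.1) : {p | adm B p J}.Infinite := by
  choose h hh using fun g => exists_p B hB g
  have key : ∀ p g j, Polynomial.aeval p (h g j) = (basis hB).repr (re B J.1 p g) j := by
    intro p g j
    rw [hh]
    simp only [← basis_apply hB]
    rw [Polynomial.coe_aeval_eq_eval]
    exact (congrFun ((basis hB).repr_sum_self (fun j => (h g j).eval p)) j).symm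
  have hdet : ∀ p, Polynomial.aeval p (Matrix.det (fun i j => h (B i) j)) =
      (Mt (basis hB) (re B J.1 p) B).det := fun p =>
    (fam_coords (k := k) (fun i j => h (B i) j) (fun p => h (X p.1 * B p.2.1) p.2.2) B
      (Polynomial.aeval p) (basis hB) (re B J.1 p) (fun i j => key p (B i) j)
      (fun l i j => key p (X l * B i) j)).1
  have hD : Matrix.det (fun i j => h (B i) j) ≠ 0 := by
    intro hz
    have h1 := hdet 0
    rw [hz, map_zero] at h1
    refine (chart_iff (basis hB) (re B J.1 0) B).1 ?_ h1.symm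
    rw [re_zero]
    exact hB
  have hfin : {p | Polynomial.IsRoot (Matrix.det (fun i j => h (B i) j)) p}.Finite :=
    Polynomial.finite_setOf_isRoot hD
  refine hfin.infinite_compl.mono ?_
  intro p hp
  refine ⟨B, ⟨0, h0⟩, (chart_iff (basis hB) (re B J.1 p) B).2 ?_⟩
  rw [← hdet, Polynomial.coe_aeval_eq_eval]
  exact hp

theorem open_step (B : Fin (r + 1) → Poly k (r + q)) (h0 : B 0 = 1) (p : k)
    {Z : Set (Hilb k (r + 1) (r + q))} (hZ : IsClosed Z) :
    IsOpen {J | J ∈ {I : Hilb k (r + 1) (r + q) | IsChart B I.1} ∧ adm B p J ∧ Phi B p J ∉ Z} := by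
  choose H hH using fun (B' : {B' : Fin (r + 1) → Poly k (r + q) // ∃ i, B' i = 1}) =>
    family (k := k) (R := MvPolynomial (Ix (r + q) (r + 1)) k)
      (fun i j => U h0 (al B p (B'.1 i)) j) (fun x => U h0 (al B p (X x.1 * B'.1 x.2.1)) x.2.2) hZ
      B'.1 B'.2
  have h := isOpen_locus B {g | ∃ B' : {B' : Fin (r + 1) → Poly k (r + q) // ∃ i, B' i = 1},
    ∃ f ∈ H B', g = Matrix.det (fun i j => U h0 (al B p (B'.1 i)) j) * f}
  convert h using 1
  ext J
  have key : ∀ (c : Ix (r + q) (r + 1) → k) (hB : IsChart B J.1) (hc : HasCoords B J.1 c)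
      (g : Poly k (r + q)) (j : Fin (r + 1)), aeval c (U h0 (al B p g) j) =
        (basis hB).repr (re B J.1 p g) j := by
    intro c hB hc g j
    rw [re_apply, repr_U h0 hB hc]
    exact DFunLike.congr_fun (coe_aeval_eq_eval c) _
  have hdet : ∀ (c : Ix (r + q) (r + 1) → k) (hB : IsChart B J.1) (hc : HasCoords B J.1 c)
      (B' : Fin (r + 1) → Poly k (r + q)), aeval c (Matrix.det (fun i j => U h0 (al B p (B' i)) j)) =
        (Mt (basis hB) (re B J.1 p) B').det := fun c hB hc B' =>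
    (fam_coords (k := k) (fun i j => U h0 (al B p (B' i)) j)
      (fun x => U h0 (al B p (X x.1 * B' x.2.1)) x.2.2) B' (aeval c) (basis hB) (re B J.1 p)
      (fun i j => key c hB hc (B' i) j) (fun l i j => key c hB hc (X l * B' i) j)).1
  constructor
  · rintro ⟨hB, hadm, hnZ⟩
    obtain ⟨c, hc⟩ := exists_coords (show IsChart B J.1 from hB)
    obtain ⟨B', hB', hch⟩ := id hadm
    have hD : aeval c (Matrix.det (fun i j => U h0 (al B p (B' i)) j)) ≠ 0 := by
      rw [hdet c hB hc]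
      exact (chart_iff (basis hB) (re B J.1 p) B').1 hch
    have h1 := hH ⟨B', hB'⟩ (aeval c) _ _ _ (basis hB) (re B J.1 p)
      (fun i j => key c hB hc (B' i) j) (fun l i j => key c hB hc (X l * B' i) j) hD _ (Phi_val hadm)
    have h2 : ¬ ∀ f ∈ H ⟨B', hB'⟩, aeval c f = 0 := fun h3 => hnZ (h1.2 h3)
    push_neg at h2
    obtain ⟨f, hf, hf0⟩ := h2
    refine ⟨c, hB, hc, _, ⟨⟨B', hB'⟩, f, hf, rfl⟩, ?_⟩
    have h3 : eval c (Matrix.det (fun i j => U h0 (al B p (B' i)) j) * f) =
        aeval c (Matrix.det (fun i j => U h0 (al B p (B' i)) j) * f) :=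
      (DFunLike.congr_fun (coe_aeval_eq_eval c) _).symm
    rw [h3, map_mul]
    exact mul_ne_zero hD hf0
  · rintro ⟨c, hB, hc, _, ⟨⟨B', hB'⟩, f, hf, rfl⟩, hne⟩
    have h3 : eval c (Matrix.det (fun i j => U h0 (al B p (B' i)) j) * f) =
        aeval c (Matrix.det (fun i j => U h0 (al B p (B' i)) j) * f) :=
      (DFunLike.congr_fun (coe_aeval_eq_eval c) _).symm
    rw [h3, map_mul] at hne
    have hD := left_ne_zero_of_mul hne
    have hf0 := right_ne_zero_of_mul hne
    have hadm : adm B p J := by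
      refine ⟨B', hB', (chart_iff (basis hB) (re B J.1 p) B').2 ?_⟩
      rw [← hdet c hB hc]
      exact hD
    have h1 := hH ⟨B', hB'⟩ (aeval c) _ _ _ (basis hB) (re B J.1 p)
      (fun i j => key c hB hc (B' i) j) (fun l i j => key c hB hc (X l * B' i) j) hD _ (Phi_val hadm)
    exact ⟨hB, hadm, fun hZ' => hf0 (h1.1 hZ' f hf)⟩

theorem re_one (B : Fin (r + 1) → Poly k (r + q)) (h0 : B 0 = 1) (J : Ideal (Poly k (r + q)))
    (i : Fin (r + 1)) : re B J 1 (B0 k r q i) = Ideal.Quotient.mk J (B i) := by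
  refine Fin.cases ?_ (fun j => ?_) i
  · rw [B0_zero, map_one, h0, map_one]
  · have e1 : B0 k r q (Fin.succ j) = X (Fin.castAdd q j) := by simp [B0]
    rw [e1, re_apply, al_X]
    simp [Y]

theorem chart_one (B : Fin (r + 1) → Poly k (r + q)) (h0 : B 0 = 1) {J : Ideal (Poly k (r + q))}
    (hB : IsChart B J) : IsChart (B0 k r q) (RingHom.ker (re B J 1)) := by
  refine isChart_ker _ fun g => ?_
  obtain ⟨a, ha⟩ := chart_ex hB (al B 1 g)
  refine ⟨a, ?_, fun a' ha' => ?_⟩
  · beta_reduce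
    simp only [re_one B h0]
    rw [re_apply, ha]
  · beta_reduce at ha'
    simp only [re_one B h0] at ha'
    rw [re_apply, ha] at ha'
    exact chart_unique hB ha'.symm

/-- an irreducible component meets the chart of `1, x_1, ..., x_r` -/
theorem step_one [Infinite k] {C : Set (Hilb k (r + 1) (r + q))}
    (hC : C ∈ irreducibleComponents (Hilb k (r + 1) (r + q))) (B : Fin (r + 1) → Poly k (r + q))
    (h0 : B 0 = 1) {J : Hilb k (r + 1) (r + q)} (hJ : J ∈ C) (hB : IsChart B J.1) :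
    ∃ J' ∈ C, IsChart (B0 k r q) J'.1 := by
  have hadm : adm B 1 J := ⟨B0 k r q, ⟨0, B0_zero⟩, chart_one B h0 hB⟩
  refine ⟨Phi B 1 J, ?_, ?_⟩
  · refine mem_component hC (isOpen_chart B) ⟨J, hJ, hB⟩ (adm B) (Phi B) 0 ?_ ?_ ?_ J ⟨hJ, hB⟩ 1 hadm
    · rintro x ⟨-, hx⟩
      have h1 : adm B 0 x := ⟨B, ⟨0, h0⟩, by rw [re_zero]; exact hx⟩
      exact ⟨h1, Subtype.ext (by rw [Phi_val h1, re_zero])⟩
    · rintro x ⟨-, hx⟩ Z1 Z2 hZ1 hZ2 hcov
      have hinf := adm_infinite B h0 hx
      have hun : {p | adm B p x} ⊆ {p | adm B p x ∧ Phi B p x ∈ Z1} ∪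
          {p | adm B p x ∧ Phi B p x ∈ Z2} := by
        intro p hp
        rcases hcov p hp with h | h
        · exact Or.inl ⟨hp, h⟩
        · exact Or.inr ⟨hp, h⟩
      rcases Set.infinite_union.1 (hinf.mono hun) with h | h
      · exact Or.inl fun t ht => param_closed B hx hZ1 h ht
      · exact Or.inr fun t ht => param_closed B hx hZ2 h ht
    · intro t Z hZ
      exact open_step B h0 t hZ
  · rw [Phi_val hadm]
    exact chart_one B h0 hB

end Pool.Agent.V8H91.HT
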