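import Pool.Agent.V8H91.HT.Step1

set_option autoImplicit false

namespace Pool.Agent.V8H91.HT

open MvPolynomial

variable {k : Type} [Field k] {r q : ℕ}

/-- the weights of the variables -/
def wv (r q : ℕ) : Fin (r + q) → ℕ := fun l =>
  Fin.addCases (motive := fun _ => ℕ) (fun _ => 1) (fun _ => 2) l

/-- the weights of the basis -/
def wb (r : ℕ) : Fin (r + 1) → ℕ := fun i => Fin.cases (motive := fun _ => ℕ) 0 (fun _ => 1) i

theorem wb_le_one (i : Fin (r + 1)) : wb r i ≤ 1 := by
  refine Fin.cases ?_ (fun j => ?_) i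
  · simp [wb]
  · simp [wb]

theorem one_le_wv (l : Fin (r + q)) : 1 ≤ wv r q l := by
  refine Fin.addCases (fun i => ?_) (fun i => ?_) l
  · simp [wv]
  · simp [wv]

/-- the exponents -/
def ex (r q : ℕ) (x : Ix (r + q) (r + 1)) : ℕ := wv r q x.1 + wb r x.2.1 - wb r x.2.2

/-- the scaling -/
noncomputable def be (r q : ℕ) (s : k) : Poly k (r + q) →ₐ[k] Poly k (r + q) :=
  aeval (fun l => C (s ^ wv r q l) * X l)

theorem be_X (s : k) (l : Fin (r + q)) : be r q s (X l) = C (s ^ wv r q l) * X l := by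
  simp [be]

theorem be_B0 (s : k) (i : Fin (r + 1)) : be r q s (B0 k r q i) = C (s ^ wb r i) * B0 k r q i := by
  refine Fin.cases ?_ (fun j => ?_) i
  · rw [B0_zero, map_one]
    simp [wb]
  · have e1 : B0 k r q (Fin.succ j) = X (Fin.castAdd q j) := by simp [B0]
    rw [e1, be_X]
    simp [wv, wb]

/-- the reduction of the scaling -/
noncomputable def rs (J : Ideal (Poly k (r + q))) (s : k) :
    Poly k (r + q) →ₐ[k] (Poly k (r + q) ⧸ J) := (Ideal.Quotient.mkₐ k J).comp (be r q s)

theorem rs_apply (J : Ideal (Poly k (r + q))) (s : k) (g : Poly k (r + q)) :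
    rs J s g = Ideal.Quotient.mk J (be r q s g) := rfl

theorem rs_B0 (J : Ideal (Poly k (r + q))) (s : k) (i : Fin (r + 1)) :
    rs J s (B0 k r q i) = s ^ wb r i • Ideal.Quotient.mk J (B0 k r q i) := by
  rw [rs_apply, be_B0, mk_C_mul]

theorem chart_rs {J : Ideal (Poly k (r + q))} (hB : IsChart (B0 k r q) J) {s : k} (hs : s ≠ 0) :
    IsChart (B0 k r q) (RingHom.ker (rs J s)) := by
  refine isChart_ker _ fun g => ?_
  obtain ⟨a, ha⟩ := chart_ex hB (be r q s g)
  have hw : ∀ i, s ^ wb r i ≠ 0 := fun i => pow_ne_zero _ hs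
  refine ⟨fun i => a i / s ^ wb r i, ?_, fun a' ha' => ?_⟩
  · beta_reduce
    simp only [rs_B0, smul_smul]
    rw [rs_apply, ha]
    exact Finset.sum_congr rfl fun i _ => by rw [div_mul_cancel₀ _ (hw i)]
  · beta_reduce at ha'
    simp only [rs_B0, smul_smul] at ha'
    rw [rs_apply, ha] at ha'
    have h1 := chart_unique hB ha'
    funext i
    rw [h1, mul_div_cancel_right₀ _ (hw i)]

/-- the scaled coordinates -/
def cs (s : k) (c : Ix (r + q) (r + 1) → k) : Ix (r + q) (r + 1) → k := fun x => s ^ ex r q x * c x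

theorem coords_rs {J : Ideal (Poly k (r + q))} {c : Ix (r + q) (r + 1) → k}
    (hc : HasCoords (B0 k r q) J c) (s : k) : HasCoords (B0 k r q) (RingHom.ker (rs J s)) (cs s c) := by
  refine hasCoords_ker _ fun l i => ?_
  have h1 : rs J s (X l) * rs J s (B0 k r q i) =
      s ^ (wv r q l + wb r i) • Ideal.Quotient.mk J (X l * B0 k r q i) := by
    rw [rs_B0, rs_apply, be_X, mk_C_mul, smul_mul_smul_comm, ← pow_add, map_mul]
  have h2 : Ideal.Quotient.mk J (X l * B0 k r q i) =
      ∑ j, c (l, i, j) • Ideal.Quotient.mk J (B0 k r q j) := by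
    rw [← mk_sum (J := J) (B := B0 k r q) (fun j => c (l, i, j))]
    exact Ideal.Quotient.eq.2 (hc l i)
  rw [h1, h2, Finset.smul_sum]
  refine Finset.sum_congr rfl fun j _ => ?_
  rw [rs_B0, smul_smul, smul_smul]
  congr 1
  have h3 : wv r q l + wb r i = ex r q (l, i, j) + wb r j := by
    have := wb_le_one j
    have := one_le_wv (q := q) l
    unfold ex
    simp only
    omega
  rw [h3, pow_add]
  unfold cs
  ring

theorem coords_first {J : Ideal (Poly k (r + q))} (hB : IsChart (B0 k r q) J)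
    {c : Ix (r + q) (r + 1) → k} (hc : HasCoords (B0 k r q) J c) (i' : Fin r) (j : Fin (r + 1)) :
    c (Fin.castAdd q i', 0, j) = if j = Fin.succ i' then 1 else 0 := by
  have h1 := hc (Fin.castAdd q i') 0
  have e1 : B0 k r q (Fin.succ i') = X (Fin.castAdd q i') := by simp [B0]
  have h2 : X (Fin.castAdd q i') * B0 k r q 0 -
      ∑ j, C ((fun j => if j = Fin.succ i' then (1 : k) else 0) j) * B0 k r q j ∈ J := by
    rw [B0_zero, mul_one, Finset.sum_eq_single (Fin.succ i')]
    · rw [e1]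
      simp
    · intro b _ hb
      simp [hb]
    · intro h
      exact absurd (Finset.mem_univ _) h
  exact congrFun ((hB (X (Fin.castAdd q i') * B0 k r q 0)).unique h1 h2) j

theorem cs_zero {J : Ideal (Poly k (r + q))} (hB : IsChart (B0 k r q) J)
    {c : Ix (r + q) (r + 1) → k} (hc : HasCoords (B0 k r q) J c) : cs 0 c = c0 k r q := by
  funext ⟨l, i, j⟩
  refine Fin.addCases (fun i' => ?_) (fun l' => ?_) l
  · refine Fin.cases ?_ (fun t => ?_) i
    · refine Fin.cases ?_ (fun j' => ?_) j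
      · simp [cs, ex, wv, wb, c0, (Fin.succ_ne_zero _).symm]
      · have h1 := coords_first hB hc i' (Fin.succ j')
        simp [cs, ex, wv, wb, c0, h1]
    · refine Fin.cases ?_ (fun j' => ?_) j
      · simp [cs, ex, wv, wb, c0]
      · simp [cs, ex, wv, wb, c0]
  · refine Fin.cases ?_ (fun t => ?_) i
    · refine Fin.cases ?_ (fun j' => ?_) j
      · simp [cs, ex, wv, wb, c0]
      · simp [cs, ex, wv, wb, c0]
    · refine Fin.cases ?_ (fun j' => ?_) j
      · simp [cs, ex, wv, wb, c0]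
      · simp [cs, ex, wv, wb, c0]

/-- the square-zero point -/
noncomputable def zeroPt (k : Type) [Field k] (r q : ℕ) : Hilb k (r + 1) (r + q) :=
  ⟨RingHom.ker (ph k r q), B0 k r q, ⟨0, B0_zero⟩, chart_zero⟩

open Classical in
/-- the scaled point -/
noncomputable def Phs (s : k) (J : Hilb k (r + 1) (r + q)) : Hilb k (r + 1) (r + q) :=
  if s = 0 then zeroPt k r q else
    if h : IsChart (B0 k r q) (RingHom.ker (rs J.1 s)) then
      ⟨RingHom.ker (rs J.1 s), B0 k r q, ⟨0, B0_zero⟩, h⟩ else J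

theorem Phs_spec {J : Hilb k (r + 1) (r + q)} (hB : IsChart (B0 k r q) J.1)
    {c : Ix (r + q) (r + 1) → k} (hc : HasCoords (B0 k r q) J.1 c) (s : k) :
    IsChart (B0 k r q) (Phs s J).1 ∧ HasCoords (B0 k r q) (Phs s J).1 (cs s c) := by
  by_cases hs : s = 0
  · have h1 : Phs s J = zeroPt k r q := if_pos hs
    rw [h1, hs, cs_zero hB hc]
    exact ⟨chart_zero, coords_zero⟩
  · have h1 : (Phs s J).1 = RingHom.ker (rs J.1 s) := by
      unfold Phs
      rw [if_neg hs, dif_pos (chart_rs hB hs)]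
    rw [h1]
    exact ⟨chart_rs hB hs, coords_rs hc s⟩

theorem rs_one (J : Ideal (Poly k (r + q))) : RingHom.ker (rs J 1) = J := by
  have h1 : rs J 1 = Ideal.Quotient.mkₐ k J := by
    refine MvPolynomial.algHom_ext fun l => ?_
    rw [rs_apply, be_X]
    simp
  rw [h1]
  exact Ideal.Quotient.mkₐ_ker k J

/-- from the chart to the square-zero point -/
theorem step_two [Infinite k] {C : Set (Hilb k (r + 1) (r + q))}
    (hC : C ∈ irreducibleComponents (Hilb k (r + 1) (r + q)))
    {J : Hilb k (r + 1) (r + q)} (hJ : J ∈ C) (hB : IsChart (B0 k r q) J.1) : zeroPt k r q ∈ C := by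
  have h := mem_component hC (isOpen_chart (B0 k r q)) ⟨J, hJ, hB⟩ (fun _ _ => True) Phs (1 : k)
    ?_ ?_ ?_ J ⟨hJ, hB⟩ 0 trivial
  · have h1 : Phs (0 : k) J = zeroPt k r q := if_pos rfl
    rwa [h1] at h
  · rintro x ⟨-, hx⟩
    refine ⟨trivial, Subtype.ext ?_⟩
    unfold Phs
    rw [if_neg one_ne_zero, dif_pos (chart_rs hx one_ne_zero)]
    exact rs_one x.1
  · rintro x ⟨-, hx⟩ Z1 Z2 hZ1 hZ2 hcov
    obtain ⟨c, hc⟩ := exists_coords (show IsChart (B0 k r q) x.1 from hx)
    have key : ∀ Z : Set (Hilb k (r + 1) (r + q)), IsClosed Z → {s : k | Phs s x ∈ Z}.Infinite →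
        ∀ s : k, Phs s x ∈ Z := by
      intro Z hZ hinf s
      obtain ⟨F, hF⟩ := (isClosed_iff.1 hZ) (B0 k r q) ⟨0, B0_zero⟩
      rw [hF _ _ (Phs_spec hx hc s).1 (Phs_spec hx hc s).2]
      intro f hf
      let g : Ix (r + q) (r + 1) → Polynomial k := fun y =>
        Polynomial.X ^ ex r q y * Polynomial.C (c y)
      have hg : ∀ t : k, (fun y => Polynomial.eval t (g y)) = cs t c := by
        intro t
        funext y
        simp only [g, cs, Polynomial.eval_mul, Polynomial.eval_pow, Polynomial.eval_X, Polynomial.eval_C]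
      have h0 : aeval g f = 0 := by
        refine Polynomial.eq_zero_of_infinite_isRoot _ (hinf.mono ?_)
        intro t ht
        change Polynomial.eval t (aeval g f) = 0
        rw [eval_aeval, hg]
        exact (hF _ _ (Phs_spec hx hc t).1 (Phs_spec hx hc t).2).1 ht f hf
      rw [← hg s, ← eval_aeval, h0, Polynomial.eval_zero]
    have hun : (Set.univ : Set k) ⊆ {s : k | Phs s x ∈ Z1} ∪ {s : k | Phs s x ∈ Z2} :=
      fun s _ => hcov s trivial
    rcases Set.infinite_union.1 (Set.infinite_univ.mono hun) with h | h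
    · exact Or.inl fun t _ => key Z1 hZ1 h t
    · exact Or.inr fun t _ => key Z2 hZ2 h t
  · intro s Z hZ
    obtain ⟨F, hF⟩ := (isClosed_iff.1 hZ) (B0 k r q) ⟨0, B0_zero⟩
    let g : Ix (r + q) (r + 1) → MvPolynomial (Ix (r + q) (r + 1)) k := fun y =>
      MvPolynomial.C (s ^ ex r q y) * X y
    have hg : ∀ (c : Ix (r + q) (r + 1) → k) (f : MvPolynomial (Ix (r + q) (r + 1)) k),
        eval c (aeval g f) = eval (cs s c) f := by
      intro c f
      induction f using MvPolynomial.induction_on with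
      | C a => rw [aeval_C, eval_C, MvPolynomial.algebraMap_eq, eval_C]
      | add p q hp hq => rw [map_add, map_add, map_add, hp, hq]
      | mul_X p y hp =>
        rw [map_mul, map_mul, map_mul, hp, aeval_X, eval_X]
        simp [g, cs]
    have h := isOpen_locus (B0 k r q) ((fun f => aeval g f) '' F)
    convert h using 1
    ext x
    constructor
    · rintro ⟨hx, -, hn⟩
      obtain ⟨c, hc⟩ := exists_coords (show IsChart (B0 k r q) x.1 from hx)
      rw [hF _ _ (Phs_spec hx hc s).1 (Phs_spec hx hc s).2] at hn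
      push_neg at hn
      obtain ⟨f, hf, hf0⟩ := hn
      exact ⟨c, hx, hc, _, ⟨f, hf, rfl⟩, by rw [hg]; exact hf0⟩
    · rintro ⟨c, hx, hc, _, ⟨f, hf, rfl⟩, hne⟩
      refine ⟨hx, trivial, fun hZ' => hne ?_⟩
      rw [hF _ _ (Phs_spec hx hc s).1 (Phs_spec hx hc s).2] at hZ'
      beta_reduce
      rw [hg]
      exact hZ' f hf

theorem chart_perm {n d : ℕ} {B : Fin d → Poly k n} {J : Ideal (Poly k n)} (hB : IsChart B J)
    (σ : Equiv.Perm (Fin d)) : IsChart (B ∘ σ) J := by
  intro g
  have key : ∀ a : Fin d → k, ∑ i, C (a i) * (B ∘ σ) i = ∑ i, C ((a ∘ σ.symm) i) * B i := by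
    intro a
    refine (Equiv.sum_comp σ (fun i => C ((a ∘ σ.symm) i) * B i)).symm.trans ?_ |>.symm
    exact Finset.sum_congr rfl fun i _ => by simp
  obtain ⟨a, ha, hu⟩ := hB g
  refine ⟨a ∘ σ, ?_, fun a' ha' => ?_⟩
  · beta_reduce
    rw [key]
    have e1 : (a ∘ σ) ∘ σ.symm = a := by funext i; simp
    rw [e1]
    exact ha
  · beta_reduce at ha'
    rw [key] at ha'
    have h1 := hu _ ha'
    rw [← h1]
    funext i
    simp

/-- **The square-zero point lies on all irreducible components.** -/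
theorem zero_mem_all [Infinite k] {C : Set (Hilb k (r + 1) (r + q))}
    (hC : C ∈ irreducibleComponents (Hilb k (r + 1) (r + q))) : zeroPt k r q ∈ C := by
  obtain ⟨J, hJ⟩ := hC.1.1
  obtain ⟨B, ⟨i0, h0⟩, hB⟩ := J.2
  have h1 : (B ∘ Equiv.swap 0 i0) 0 = 1 := by
    rw [Function.comp_apply, Equiv.swap_apply_left, h0]
  obtain ⟨J', hJ', hB'⟩ := step_one hC _ h1 hJ (chart_perm hB _)
  exact step_two hC hJ' hB'

end Pool.Agent.V8H91.HT
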