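import Pool.Agent.V8H91.HT.Defs

set_option autoImplicit false

namespace Pool.Agent.V8H91.HT

open MvPolynomial

variable {k : Type} [Field k] {n d : ℕ}

/-! ### the derivative -/

theorem deriv_add (c v : Ix n d → k) (f g : MvPolynomial (Ix n d) k) :
    deriv c v (f + g) = deriv c v f + deriv c v g := by
  simp only [deriv, map_add, mul_add, Finset.sum_add_distrib]

theorem deriv_sub (c v : Ix n d → k) (f g : MvPolynomial (Ix n d) k) :
    deriv c v (f - g) = deriv c v f - deriv c v g := by
  simp only [deriv, map_sub, mul_sub, Finset.sum_sub_distrib]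

theorem deriv_mul (c v : Ix n d → k) (f g : MvPolynomial (Ix n d) k) :
    deriv c v (f * g) = deriv c v f * eval c g + eval c f * deriv c v g := by
  simp only [deriv, Derivation.leibniz, smul_eq_mul, map_add, map_mul, mul_add, Finset.sum_add_distrib,
    Finset.sum_mul, Finset.mul_sum]
  rw [add_comm]
  congr 1
  · exact Finset.sum_congr rfl fun x _ => by ring
  · exact Finset.sum_congr rfl fun x _ => by ring

theorem deriv_C (c v : Ix n d → k) (a : k) : deriv c v (C a) = 0 := by
  simp [deriv]

theorem deriv_X (c v : Ix n d → k) (x : Ix n d) : deriv c v (X x) = v x := by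
  classical
  simp only [deriv, pderiv_X]
  rw [Finset.sum_eq_single x]
  · simp
  · intro y _ hy
    rw [Pi.single_eq_of_ne (Ne.symm hy)]
    simp
  · intro h
    exact absurd (Finset.mem_univ x) h

theorem deriv_sum {ι : Type} (c v : Ix n d → k) (s : Finset ι) (f : ι → MvPolynomial (Ix n d) k) :
    deriv c v (∑ i ∈ s, f i) = ∑ i ∈ s, deriv c v (f i) := by
  classical
  induction s using Finset.induction_on with
  | empty => simp [deriv]
  | insert a s ha ih => rw [Finset.sum_insert ha, Finset.sum_insert ha, deriv_add, ih]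

/-- the derivative as a linear map of the direction -/
noncomputable def derivL (c : Ix n d → k) (f : MvPolynomial (Ix n d) k) : (Ix n d → k) →ₗ[k] k where
  toFun v := deriv c v f
  map_add' v w := by simp only [deriv, Pi.add_apply, add_mul, Finset.sum_add_distrib]
  map_smul' a v := by
    simp only [deriv, Pi.smul_apply, smul_eq_mul, Finset.mul_sum, mul_assoc, RingHom.id_apply]

/-! ### the basis of the quotient -/

section chart

variable {B : Fin d → Poly k n} {J : Ideal (Poly k n)}

theorem mk_C_mul (a : k) (g : Poly k n) : Ideal.Quotient.mk J (C a * g) = a • Ideal.Quotient.mk J g := by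
  rw [← smul_eq_C_mul]
  exact map_smul (Ideal.Quotient.mkₐ k J) a g

theorem mk_sum (a : Fin d → k) : Ideal.Quotient.mk J (∑ i, C (a i) * B i) =
    ∑ i, a i • Ideal.Quotient.mk J (B i) := by
  rw [map_sum]
  exact Finset.sum_congr rfl fun i _ => mk_C_mul _ _

theorem chart_ex (hB : IsChart B J) (g : Poly k n) :
    ∃ a : Fin d → k, Ideal.Quotient.mk J g = ∑ i, a i • Ideal.Quotient.mk J (B i) := by
  obtain ⟨a, ha, -⟩ := hB g
  refine ⟨a, ?_⟩
  rw [← mk_sum]
  exact Ideal.Quotient.eq.2 ha

theorem chart_unique (hB : IsChart B J) {a a' : Fin d → k}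
    (h : ∑ i, a i • Ideal.Quotient.mk J (B i) = ∑ i, a' i • Ideal.Quotient.mk J (B i)) : a = a' := by
  rw [← mk_sum, ← mk_sum] at h
  have h1 : (∑ i, C (a i) * B i) - ∑ i, C (a' i) * B i ∈ J := Ideal.Quotient.eq.1 h
  refine (hB (∑ i, C (a i) * B i)).unique ?_ h1
  rw [sub_self]
  exact J.zero_mem

/-- the basis of the quotient -/
noncomputable def basis (hB : IsChart B J) : Module.Basis (Fin d) k (Poly k n ⧸ J) :=
  Module.Basis.mk (v := fun i => Ideal.Quotient.mk J (B i))
    (by
      rw [Fintype.linearIndependent_iff]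
      intro a ha i
      have h : a = 0 := chart_unique hB (by rw [ha]; simp)
      rw [h]; rfl)
    (by
      intro x _
      obtain ⟨g, rfl⟩ := Ideal.Quotient.mk_surjective x
      obtain ⟨a, ha⟩ := chart_ex hB g
      rw [ha]
      exact Submodule.sum_mem _ fun i _ => Submodule.smul_mem _ _ (Submodule.subset_span ⟨i, rfl⟩))

theorem basis_apply (hB : IsChart B J) (i : Fin d) : basis hB i = Ideal.Quotient.mk J (B i) := by
  unfold basis
  rw [Module.Basis.mk_apply]

end chart

/-! ### universal polynomials -/

theorem exists_univ (B : Fin d → Poly k n) (i0 : Fin d) (h0 : B i0 = 1) (g : Poly k n) :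
    ∃ P : Fin d → MvPolynomial (Ix n d) k, ∀ (J : Ideal (Poly k n)) (c : Ix n d → k), HasCoords B J c →
      Ideal.Quotient.mk J g = ∑ j, eval c (P j) • Ideal.Quotient.mk J (B j) := by
  classical
  induction g using MvPolynomial.induction_on with
  | C a =>
    refine ⟨fun j => if j = i0 then C a else 0, fun J c _ => ?_⟩
    rw [Finset.sum_eq_single i0]
    · beta_reduce
      rw [if_pos rfl, eval_C, h0, ← mk_C_mul, mul_one]
    · intro j _ hj
      beta_reduce
      rw [if_neg hj, map_zero, zero_smul]
    · intro h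
      exact absurd (Finset.mem_univ i0) h
  | add p q hp hq =>
    obtain ⟨P, hP⟩ := hp
    obtain ⟨Q, hQ⟩ := hq
    refine ⟨fun j => P j + Q j, fun J c hc => ?_⟩
    rw [map_add, hP J c hc, hQ J c hc, ← Finset.sum_add_distrib]
    exact Finset.sum_congr rfl fun j _ => by rw [map_add, add_smul]
  | mul_X p l hp =>
    obtain ⟨P, hP⟩ := hp
    refine ⟨fun j => ∑ i, P i * X (l, i, j), fun J c hc => ?_⟩
    have h1 : ∀ i, Ideal.Quotient.mk J (X l) * Ideal.Quotient.mk J (B i) =
        ∑ j, c (l, i, j) • Ideal.Quotient.mk J (B j) := by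
      intro i
      rw [← map_mul, ← mk_sum (J := J) (B := B) (fun j => c (l, i, j))]
      exact Ideal.Quotient.eq.2 (hc l i)
    rw [map_mul, hP J c hc, Finset.sum_mul]
    have h2 : ∀ i, eval c (P i) • Ideal.Quotient.mk J (B i) * Ideal.Quotient.mk J (X l) =
        ∑ j, (eval c (P i) * c (l, i, j)) • Ideal.Quotient.mk J (B j) := by
      intro i
      rw [smul_mul_assoc, mul_comm, h1, Finset.smul_sum]
      exact Finset.sum_congr rfl fun j _ => by rw [smul_smul]
    rw [Finset.sum_congr rfl fun i _ => h2 i, Finset.sum_comm]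
    refine Finset.sum_congr rfl fun j _ => ?_
    rw [← Finset.sum_smul, map_sum]
    congr 1
    exact Finset.sum_congr rfl fun i _ => by rw [map_mul, eval_X]

end Pool.Agent.V8H91.HT
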