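import Pool.Agent.V8H91.HT.Up2

set_option autoImplicit false

namespace Pool.Agent.V8H91.HT

open MvPolynomial

variable {k : Type} [Field k] {n d : ℕ} {B : Fin d → Poly k n} {I : Ideal (Poly k n)}
  {c : Ix n d → k} {i0 : Fin d}

theorem bilin {K A : Type} [Field K] [CommRing A] [Algebra K A] {ι : Type} [Fintype ι]
    (η : A →ₗ[K] A) (b : ι → A) (x y : ι → K) :
    η ((∑ i, x i • b i) * ∑ m, y m • b m) = (∑ m, y m • b m) * η (∑ i, x i • b i) +
      (∑ i, x i • b i) * η (∑ m, y m • b m) +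
      ∑ i, ∑ m, (x i * y m) • (η (b i * b m) - b m * η (b i) - b i * η (b m)) := by
  have h1 : η ((∑ i, x i • b i) * ∑ m, y m • b m) = ∑ i, ∑ m, (x i * y m) • η (b i * b m) := by
    rw [Finset.sum_mul_sum, map_sum]
    refine Finset.sum_congr rfl fun i _ => ?_
    rw [map_sum]
    exact Finset.sum_congr rfl fun m _ => by rw [smul_mul_smul_comm, map_smul]
  have h2 : (∑ m, y m • b m) * η (∑ i, x i • b i) = ∑ i, ∑ m, (x i * y m) • (b m * η (b i)) := by
    rw [map_sum, Finset.sum_mul_sum, Finset.sum_comm]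
    refine Finset.sum_congr rfl fun i _ => Finset.sum_congr rfl fun m _ => ?_
    rw [map_smul, smul_mul_smul_comm, mul_comm (y m)]
  have h3 : (∑ i, x i • b i) * η (∑ m, y m • b m) = ∑ i, ∑ m, (x i * y m) • (b i * η (b m)) := by
    rw [map_sum, Finset.sum_mul_sum]
    refine Finset.sum_congr rfl fun i _ => Finset.sum_congr rfl fun m _ => ?_
    rw [map_smul, smul_mul_smul_comm]
  rw [h1, h2, h3, ← Finset.sum_add_distrib, ← Finset.sum_add_distrib]
  refine Finset.sum_congr rfl fun i _ => ?_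
  rw [← Finset.sum_add_distrib, ← Finset.sum_add_distrib]
  refine Finset.sum_congr rfl fun m _ => ?_
  rw [smul_sub, smul_sub]
  abel

/-- the map `ψ_v + η` -/
noncomputable def Psi (I : Ideal (Poly k n)) (c : Ix n d → k) (h0 : B i0 = 1) (v : Ix n d → k)
    (η : (Poly k n ⧸ I) →ₗ[k] (Poly k n ⧸ I)) (g : Poly k n) : Poly k n ⧸ I :=
  psi I c h0 g v + η (Ideal.Quotient.mk I g)

/-- the cocycle of `Psi` -/
noncomputable def G (I : Ideal (Poly k n)) (c : Ix n d → k) (h0 : B i0 = 1) (v : Ix n d → k)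
    (η : (Poly k n ⧸ I) →ₗ[k] (Poly k n ⧸ I)) (i m : Fin d) : Poly k n ⧸ I :=
  psi I c h0 (B i * B m) v + (η (Ideal.Quotient.mk I (B i) * Ideal.Quotient.mk I (B m)) -
    Ideal.Quotient.mk I (B m) * η (Ideal.Quotient.mk I (B i)) -
    Ideal.Quotient.mk I (B i) * η (Ideal.Quotient.mk I (B m)))

theorem G_symm (h0 : B i0 = 1) (v : Ix n d → k) (η : (Poly k n ⧸ I) →ₗ[k] (Poly k n ⧸ I))
    (i m : Fin d) : G I c h0 v η i m = G I c h0 v η m i := by
  unfold G
  rw [mul_comm (B i), mul_comm (Ideal.Quotient.mk I (B i)) (Ideal.Quotient.mk I (B m))]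
  abel

theorem Psi_mul (h0 : B i0 = 1) (hI : HasCoords B I c) {v : Ix n d → k} (hv : v ∈ tangent B c)
    (η : (Poly k n ⧸ I) →ₗ[k] (Poly k n ⧸ I)) (g g' : Poly k n) : Psi I c h0 v η (g * g') =
      Ideal.Quotient.mk I g' * Psi I c h0 v η g + Ideal.Quotient.mk I g * Psi I c h0 v η g' +
        ∑ i, ∑ m, (eval c (U h0 g i) * eval c (U h0 g' m)) • G I c h0 v η i m := by
  have h1 := bilin η (fun i => Ideal.Quotient.mk I (B i)) (fun i => eval c (U h0 g i))
    (fun i => eval c (U h0 g' i))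
  rw [← U_spec h0 g hI, ← U_spec h0 g' hI] at h1
  unfold Psi
  rw [psi_mul h0 hI hv, map_mul, h1]
  unfold G
  simp only [smul_add, Finset.sum_add_distrib, mul_add]
  abel

/-- multiples of the unit -/
theorem Psi_cocycle (h0 : B i0 = 1) (hB : IsChart B I) (hI : HasCoords B I c) (hd : 3 ≤ d)
    {v : Ix n d → k} (hv : v ∈ tangent B c) (η : (Poly k n ⧸ I) →ₗ[k] (Poly k n ⧸ I))
    (γ : Fin d → Fin d → k) (hG : ∀ i m, G I c h0 v η i m = γ i m • (1 : Poly k n ⧸ I))
    {i : Fin d} (hi : i ≠ i0) (m : Fin d) : γ i m = 0 := by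
  classical
  obtain ⟨t, ht0, hti⟩ : ∃ t : Fin d, t ≠ i0 ∧ t ≠ i := by
    have hcard : (({i0, i} : Finset (Fin d))ᶜ).Nonempty := by
      rw [← Finset.card_pos, Finset.card_compl, Fintype.card_fin]
      have := Finset.card_le_two (a := i0) (b := i)
      omega
    obtain ⟨t, ht⟩ := hcard
    rw [Finset.mem_compl, Finset.mem_insert, Finset.mem_singleton, not_or] at ht
    exact ⟨t, ht.1, ht.2⟩
  have hPB : ∀ i, Psi I c h0 v η (B i) = η (Ideal.Quotient.mk I (B i)) := by
    intro i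
    unfold Psi
    rw [psi_B h0 hv, zero_add]
  have h2 : ∀ i m, Psi I c h0 v η (B i * B m) = γ i m • (1 : Poly k n ⧸ I) +
      Ideal.Quotient.mk I (B m) * Psi I c h0 v η (B i) +
      Ideal.Quotient.mk I (B i) * Psi I c h0 v η (B m) := by
    intro i m
    rw [← hG, hPB, hPB]
    unfold G Psi
    rw [map_mul]
    abel
  have hS : ∀ g g' : Poly k n, ∃ s : k,
      ∑ i, ∑ m, (eval c (U h0 g i) * eval c (U h0 g' m)) • G I c h0 v η i m =
        s • (1 : Poly k n ⧸ I) := by
    intro g g'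
    refine ⟨∑ i, ∑ m, (eval c (U h0 g i) * eval c (U h0 g' m)) * γ i m, ?_⟩
    rw [Finset.sum_smul]
    refine Finset.sum_congr rfl fun i _ => ?_
    rw [Finset.sum_smul]
    exact Finset.sum_congr rfl fun m _ => by rw [hG, smul_smul]
  have e1 := Psi_mul h0 hI hv η (B i * B m) (B t)
  have e2 := Psi_mul h0 hI hv η (B i) (B m * B t)
  obtain ⟨s1, hs1⟩ := hS (B i * B m) (B t)
  obtain ⟨s2, hs2⟩ := hS (B i) (B m * B t)
  rw [hs1, h2 i m] at e1
  rw [hs2, h2 m t] at e2
  rw [mul_assoc, e2] at e1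
  simp only [map_mul] at e1
  have e3 : γ i m • Ideal.Quotient.mk I (B t) + s1 • Ideal.Quotient.mk I (B i0) =
      γ m t • Ideal.Quotient.mk I (B i) + s2 • Ideal.Quotient.mk I (B i0) := by
    have q1 : ∀ (a : k) (x : Poly k n ⧸ I), x * a • (1 : Poly k n ⧸ I) = a • x := by
      intro a x
      rw [mul_smul_comm, mul_one]
    rw [h0, map_one]
    simp only [mul_add, q1] at e1
    have e4 := e1.symm
    rw [← sub_eq_zero] at e4 ⊢
    rw [← e4]
    ring
  have e5 := congrArg (fun x => (basis hB).repr x t) e3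
  simp only [← basis_apply hB, map_add, map_smul, Finsupp.add_apply, Finsupp.smul_apply,
    Module.Basis.repr_self, Finsupp.single_eq_same, Finsupp.single_eq_of_ne hti,
    Finsupp.single_eq_of_ne ht0, smul_eq_mul, mul_zero, mul_one, add_zero] at e5
  exact e5

end Pool.Agent.V8H91.HT
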